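import Pool.Agent.H943R4.BA.Obj

/-! Task A: closure properties of `Alt`. -/

set_option autoImplicit false

namespace Pool.Agent.H943R4.BA

open Finset H568R2 Pool.Agent.H676 Pool.Agent.H620R2.Gauge Pool.Agent.H591R3.PHG Pool.Agent.NPC

section A
variable {I : Type} [Fintype I] [DecidableEq I] {m r m' r' : ℕ}

theorem Alt.const (k : ℕ) (b : Bool) (c : Bool) : Alt m r k b (fun _ : I → Bool => c) := by
  induction k generalizing b with
  | zero => exact DTr.const ⟨c, fun _ => rfl⟩
  | succ k ih =>
    cases b with
    | true =>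
      refine ⟨fun _ _ => c, fun _ => ih false, fun a => ?_⟩
      exact ⟨fun h => ⟨[], Nat.zero_le _, h⟩, fun ⟨_, _, h⟩ => h⟩
    | false =>
      refine ⟨fun _ _ => c, fun _ => ih true, fun a => ?_⟩
      exact ⟨fun h _ _ => h, fun h => h [] (Nat.zero_le _)⟩

theorem Alt.mono (hm : m ≤ m') (hr : r ≤ r') {k : ℕ} {b : Bool} {g : (I → Bool) → Bool}
    (h : Alt m r k b g) : Alt m' r' k b g := by
  induction k generalizing b g with
  | zero => exact DTr.mono h hr
  | succ k ih =>
    cases b with
    | true =>
      obtain ⟨G, hG, hg⟩ := h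
      refine ⟨fun w => if w.length ≤ m then G w else G [], fun w => ?_, fun a => ?_⟩
      · by_cases hw : w.length ≤ m
        · simp only [if_pos hw]; exact ih (hG w)
        · simp only [if_neg hw]; exact ih (hG [])
      · rw [hg]
        constructor
        · rintro ⟨w, hw, h⟩
          exact ⟨w, hw.trans hm, by simp only [if_pos hw]; exact h⟩
        · rintro ⟨w, -, h⟩
          by_cases hw : w.length ≤ m
          · simp only [if_pos hw] at h; exact ⟨w, hw, h⟩
          · simp only [if_neg hw] at h; exact ⟨[], Nat.zero_le _, h⟩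
    | false =>
      obtain ⟨G, hG, hg⟩ := h
      refine ⟨fun w => if w.length ≤ m then G w else G [], fun w => ?_, fun a => ?_⟩
      · by_cases hw : w.length ≤ m
        · simp only [if_pos hw]; exact ih (hG w)
        · simp only [if_neg hw]; exact ih (hG [])
      · rw [hg]
        constructor
        · intro h w _
          by_cases hw : w.length ≤ m
          · simp only [if_pos hw]; exact h w hw
          · simp only [if_neg hw]; exact h [] (Nat.zero_le _)
        · intro h w hw
          have h1 := h w (hw.trans hm)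
          simp only [if_pos hw] at h1
          exact h1

theorem Alt.not {k : ℕ} {b : Bool} {g : (I → Bool) → Bool} (h : Alt m r k b g) :
    Alt m r k (!b) (fun a => !g a) := by
  induction k generalizing b g with
  | zero => exact DTr.comp (fun x => !x) h
  | succ k ih =>
    cases b with
    | true =>
      obtain ⟨G, hG, hg⟩ := h
      refine ⟨fun w a => !G w a, fun w => ih (hG w), fun a => ?_⟩
      rw [Bool.not_eq_true', ← Bool.not_eq_true, hg]
      constructor
      · intro h w hw
        rw [Bool.not_eq_true', ← Bool.not_eq_true]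
        exact fun h' => h ⟨w, hw, h'⟩
      · rintro h ⟨w, hw, h'⟩
        have h1 : (!G w a) = true := h w hw
        rw [h'] at h1
        exact Bool.noConfusion h1
    | false =>
      obtain ⟨G, hG, hg⟩ := h
      refine ⟨fun w a => !G w a, fun w => ih (hG w), fun a => ?_⟩
      rw [Bool.not_eq_true', ← Bool.not_eq_true, hg]
      constructor
      · intro h
        push Not at h
        obtain ⟨w, hw, h'⟩ := h
        refine ⟨w, hw, ?_⟩
        rw [Bool.not_eq_true', ← Bool.not_eq_true]
        exact h'
      · rintro ⟨w, hw, h'⟩ h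
        have h1 := h w hw
        have h2 : (!G w a) = true := h'
        rw [h1] at h2
        exact Bool.noConfusion h2

theorem Alt.up {k : ℕ} {b : Bool} (c : Bool) {g : (I → Bool) → Bool} (h : Alt m r k b g) :
    Alt m r (k + 1) c g := by
  induction k generalizing b c g with
  | zero =>
    cases c with
    | true =>
      refine ⟨fun _ => g, fun _ => h, fun a => ?_⟩
      exact ⟨fun h => ⟨[], Nat.zero_le _, h⟩, fun ⟨_, _, h⟩ => h⟩
    | false =>
      refine ⟨fun _ => g, fun _ => h, fun a => ?_⟩
      exact ⟨fun h _ _ => h, fun h => h [] (Nat.zero_le _)⟩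
  | succ k ih =>
    cases c with
    | true =>
      cases b with
      | true =>
        obtain ⟨G, hG, hg⟩ := h
        exact ⟨G, fun w => ih false (hG w), hg⟩
      | false =>
        refine ⟨fun _ => g, fun _ => h, fun a => ?_⟩
        exact ⟨fun h => ⟨[], Nat.zero_le _, h⟩, fun ⟨_, _, h⟩ => h⟩
    | false =>
      cases b with
      | false =>
        obtain ⟨G, hG, hg⟩ := h
        exact ⟨G, fun w => ih true (hG w), hg⟩
      | true =>
        refine ⟨fun _ => g, fun _ => h, fun a => ?_⟩
        exact ⟨fun h _ _ => h, fun h => h [] (Nat.zero_le _)⟩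

theorem A.length_str_le {x : ℕ} (hx : x < 2 ^ m') : (str x).length ≤ m' := by
  rw [length_str]
  have h1 : x + 1 ≤ 2 ^ m' := hx
  calc Nat.log 2 (x + 1) ≤ Nat.log 2 (2 ^ m') := Nat.log_mono_right h1
    _ = m' := Nat.log_pow (by norm_num) m'

theorem A.length_pair (x w : List Bool) : (pairBits x w).length = 2 * x.length + 1 + w.length := by
  unfold pairBits
  rw [List.length_append, List.length_cons, List.length_flatMap]
  simp
  omega

/-- one more bounded existential quantifier: pair the strings -/
theorem Alt.ex {k T : ℕ} (hT : T < 2 ^ m') {g : (I → Bool) → Bool}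
    (h : ℕ → (I → Bool) → Bool) (hh : ∀ x ≤ T, Alt m r (k + 1) true (h x))
    (hg : ∀ a, (g a = true ↔ ∃ x ≤ T, h x a = true)) :
    Alt (2 * m' + 1 + m) r (k + 1) true g := by
  classical
  have h1 : ∀ x : ℕ, ∃ G : List Bool → (I → Bool) → Bool, x ≤ T →
      (∀ w, Alt m r k false (G w)) ∧
      ∀ a, (h x a = true ↔ ∃ w : List Bool, w.length ≤ m ∧ G w a = true) := by
    intro x
    by_cases hx : x ≤ T
    · obtain ⟨G, hG, hg⟩ := hh x hx
      exact ⟨G, fun _ => ⟨hG, hg⟩⟩
    · exact ⟨fun _ _ => false, fun h => absurd h hx⟩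
  choose H hH using h1
  have hmm : m ≤ 2 * m' + 1 + m := by omega
  refine ⟨fun z => if idx (unpair z).1 ≤ T ∧ (unpair z).2.length ≤ m then
    H (idx (unpair z).1) (unpair z).2 else fun _ => false, fun z => ?_, fun a => ?_⟩
  · by_cases hz : idx (unpair z).1 ≤ T ∧ (unpair z).2.length ≤ m
    · simp only [if_pos hz]
      exact ((hH _ hz.1).1 _).mono hmm le_rfl
    · simp only [if_neg hz]
      exact Alt.const k false false
  · rw [hg]
    constructor
    · rintro ⟨x, hx, hxa⟩
      obtain ⟨w, hw, hwa⟩ := ((hH x hx).2 a).1 hxa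
      refine ⟨pairBits (str x) w, ?_, ?_⟩
      · rw [A.length_pair]
        have := A.length_str_le (lt_of_le_of_lt hx hT)
        omega
      · have hc : idx (unpair (pairBits (str x) w)).1 ≤ T ∧
            (unpair (pairBits (str x) w)).2.length ≤ m := by
          rw [unpair_pairBits]
          exact ⟨by rw [idx_str]; exact hx, hw⟩
        simp only [if_pos hc]
        rw [unpair_pairBits]
        simp only [idx_str]
        exact hwa
    · rintro ⟨z, -, hz⟩
      by_cases hc : idx (unpair z).1 ≤ T ∧ (unpair z).2.length ≤ m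
      · simp only [if_pos hc] at hz
        exact ⟨_, hc.1, ((hH _ hc.1).2 a).2 ⟨_, hc.2, hz⟩⟩
      · simp only [if_neg hc] at hz
        exact Bool.noConfusion hz

theorem Alt.all {k T : ℕ} (hT : T < 2 ^ m') {g : (I → Bool) → Bool}
    (h : ℕ → (I → Bool) → Bool) (hh : ∀ x ≤ T, Alt m r (k + 1) false (h x))
    (hg : ∀ a, (g a = true ↔ ∀ x ≤ T, h x a = true)) :
    Alt (2 * m' + 1 + m) r (k + 1) false g := by
  have h1 : Alt (2 * m' + 1 + m) r (k + 1) true (fun a => !g a) := by
    apply Alt.ex hT (fun x a => !h x a) (fun x hx => (hh x hx).not)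
    intro a
    rw [Bool.not_eq_true', ← Bool.not_eq_true, hg]
    constructor
    · intro h
      push Not at h
      obtain ⟨x, hx, h'⟩ := h
      refine ⟨x, hx, ?_⟩
      rw [Bool.not_eq_true', ← Bool.not_eq_true]
      exact h'
    · rintro ⟨x, hx, h'⟩ h
      have h1 := h x hx
      rw [h1] at h'
      exact Bool.noConfusion h'
  have h2 := h1.not
  simp only [Bool.not_not] at h2
  exact h2

/-- substitution -/
theorem Alt.subst {J : Type} [Fintype J] [DecidableEq J] (φ : (J → Bool) → I → Bool)
    (hφ : ∀ f : (I → Bool) → Bool, DTr r f → DTr r (fun z => f (φ z))) {k : ℕ} {b : Bool}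
    {g : (I → Bool) → Bool} (h : Alt m r k b g) : Alt m r k b (fun z => g (φ z)) := by
  induction k generalizing b g with
  | zero => exact hφ g h
  | succ k ih =>
    cases b with
    | true =>
      obtain ⟨G, hG, hg⟩ := h
      exact ⟨fun w z => G w (φ z), fun w => ih (hG w), fun z => hg (φ z)⟩
    | false =>
      obtain ⟨G, hG, hg⟩ := h
      exact ⟨fun w z => G w (φ z), fun w => ih (hG w), fun z => hg (φ z)⟩

end A

end Pool.Agent.H943R4.BA
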