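import Pool.Agent.H943R4.BA.Obj
import Pool.Agent.H620R2.Gauge.Dt

set_option autoImplicit false

namespace Pool.Agent.H943R4.BA

open Finset H568R2 Pool.Agent.H676 Pool.Agent.H620R2.Gauge Pool.Agent.H591R3.PHG Pool.Agent.NPC

namespace B

section
variable {I : Type} [Fintype I] [DecidableEq I] {m r : ℕ}

theorem alt_const (k : ℕ) : ∀ (b : Bool) (c : Bool), Alt m r k b (fun _ : I → Bool => c) := by
  induction k with
  | zero =>
    intro b c
    cases b <;> exact DTr.const ⟨c, fun _ => rfl⟩
  | succ k ih =>
    intro b c
    cases b with
    | true =>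
      refine ⟨fun _ _ => c, fun w => ih false c, fun a => ?_⟩
      constructor
      · intro h
        exact ⟨[], by simp, h⟩
      · rintro ⟨_, _, h⟩
        exact h
    | false =>
      refine ⟨fun _ _ => c, fun w => ih true c, fun a => ?_⟩
      constructor
      · intro h w _
        exact h
      · intro h
        exact h [] (by simp)

theorem alt_not {k : ℕ} : ∀ {b : Bool} {g : (I → Bool) → Bool}, Alt m r k b g →
    Alt m r k (!b) (fun a => !g a) := by
  induction k with
  | zero =>
    intro b g h
    have h' : DTr r g := by cases b <;> exact h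
    have h2 : DTr r (fun a => !g a) := h'.comp not
    cases b <;> exact h2
  | succ k ih =>
    intro b g h
    cases b with
    | true =>
      obtain ⟨G, hG, hg⟩ := h
      refine ⟨fun w a => !G w a, fun w => ih (hG w), fun a => ?_⟩
      have := hg a
      simp only [Bool.not_eq_true']
      rw [Bool.eq_false_iff, ne_eq, this]
      push Not
      simp only [ne_eq, Bool.not_eq_true]
    | false =>
      obtain ⟨G, hG, hg⟩ := h
      refine ⟨fun w a => !G w a, fun w => ih (hG w), fun a => ?_⟩
      have := hg a
      simp only [Bool.not_eq_true']
      rw [Bool.eq_false_iff, ne_eq, this]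
      push Not
      simp only [ne_eq, Bool.not_eq_true]

theorem dtr_and {s : ℕ} (r : ℕ) : ∀ {f₁ f₂ : (I → Bool) → Bool},
    DTr r f₁ → DTr s f₂ → DTr (r + s) (fun a => f₁ a && f₂ a) := by
  induction r with
  | zero =>
    rintro f₁ f₂ ⟨c, hc⟩ h₂
    rw [zero_add]
    cases c with
    | true =>
      have : (fun a => f₁ a && f₂ a) = f₂ := by funext a; rw [hc a, Bool.true_and]
      rw [this]
      exact h₂
    | false =>
      exact DTr.const ⟨false, fun a => by rw [hc a, Bool.false_and]⟩
  | succ r ih =>
    intro f₁ f₂ h₁ h₂
    have e : r + 1 + s = (r + s) + 1 := by ring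
    rcases h₁ with ⟨c, hc⟩ | ⟨i, hi⟩
    · cases c with
      | true =>
        have : (fun a => f₁ a && f₂ a) = f₂ := by funext a; rw [hc a, Bool.true_and]
        rw [this]
        exact h₂.mono (by omega)
      | false =>
        exact DTr.const ⟨false, fun a => by rw [hc a, Bool.false_and]⟩
    · rw [e]
      exact Or.inr ⟨i, fun b => ih (hi b) (DTr_update h₂ i b)⟩

theorem dtr_conj (M : ℕ) : ∀ {g : (I → Bool) → Bool} (h : ℕ → (I → Bool) → Bool),
    (∀ i < M, DTr r (h i)) → (∀ a, (g a = true ↔ ∀ i < M, h i a = true)) → DTr (M * r) g := by
  induction M with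
  | zero =>
    intro g h _ hg
    exact DTr.const ⟨true, fun a => (hg a).2 (fun i hi => absurd hi (Nat.not_lt_zero i))⟩
  | succ M ih =>
    intro g h hh hg
    have h1 : DTr (M * r) (fun a => decide (∀ i < M, h i a = true)) :=
      ih h (fun i hi => hh i (by omega)) (fun a => by simp)
    have h2 := dtr_and (M * r) h1 (hh M (by omega))
    have e : g = fun a => decide (∀ i < M, h i a = true) && h M a := by
      funext a
      rw [Bool.eq_iff_iff, hg a, Bool.and_eq_true, decide_eq_true_iff]
      constructor
      · intro h3
        exact ⟨fun i hi => h3 i (by omega), h3 M (by omega)⟩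
      · rintro ⟨h3, h4⟩ i hi
        rcases Nat.lt_succ_iff_lt_or_eq.1 hi with h5 | rfl
        · exact h3 i h5
        · exact h4
    rw [e, show (M + 1) * r = M * r + r by ring]
    exact h2

end

/-- the string with the components `w 0, ..., w (n-1)` -/
def tup : (ℕ → List Bool) → ℕ → List Bool
  | _, 0 => []
  | w, n + 1 => pairBits (w 0) (tup (fun i => w (i + 1)) n)

/-- the components -/
def comp : ℕ → List Bool → List Bool
  | 0, z => (unpair z).1
  | i + 1, z => comp i (unpair z).2

theorem comp_tup (n : ℕ) : ∀ (w : ℕ → List Bool) (i : ℕ), i < n → comp i (tup w n) = w i := by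
  induction n with
  | zero => intro w i hi; omega
  | succ n ih =>
    intro w i hi
    cases i with
    | zero => simp only [comp, tup, unpair_pairBits]
    | succ i =>
      simp only [comp, tup, unpair_pairBits]
      rw [ih _ i (by omega)]

theorem length_tup {m : ℕ} (n : ℕ) : ∀ (w : ℕ → List Bool), (∀ i < n, (w i).length ≤ m) →
    (tup w n).length ≤ n * (2 * m + 2) := by
  induction n with
  | zero => intro w _; simp [tup]
  | succ n ih =>
    intro w hw
    have h1 := ih (fun i => w (i + 1)) (fun i hi => hw (i + 1) (by omega))
    have h2 := hw 0 (by omega)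
    simp only [tup, length_pairBits]
    nlinarith

end B

section B
variable {I : Type} [Fintype I] [DecidableEq I] {m r : ℕ}

theorem Alt.conj {k : ℕ} {b : Bool} (M : ℕ) {g : (I → Bool) → Bool}
    (h : ℕ → (I → Bool) → Bool) (hh : ∀ i < M, Alt m r k b (h i))
    (hg : ∀ a, (g a = true ↔ ∀ i < M, h i a = true)) :
    Alt (M * (2 * m + 2)) (M * r) k b g := by
  induction k generalizing b g h with
  | zero =>
    have h1 : DTr (M * r) g := B.dtr_conj M h (fun i hi => by
      have := hh i hi
      cases b <;> exact this) hg
    cases b <;> exact h1
  | succ k ih =>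
    rcases Nat.eq_zero_or_pos M with rfl | hM
    · have e : g = fun _ => true := by
        funext a
        exact (hg a).2 (fun i hi => absurd hi (Nat.not_lt_zero i))
      rw [e]
      exact B.alt_const _ _ _
    cases b with
    | false =>
      have hh' : ∀ i, ∃ G : List Bool → (I → Bool) → Bool, i < M →
          ((∀ w, Alt m r k true (G w)) ∧
            ∀ a, (h i a = true ↔ ∀ w : List Bool, w.length ≤ m → G w a = true)) := by
        intro i
        by_cases hi : i < M
        · obtain ⟨G, hG⟩ := hh i hi
          exact ⟨G, fun _ => hG⟩
        · exact ⟨fun _ _ => true, fun hi' => absurd hi' hi⟩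
      choose G hG using hh'
      refine ⟨fun w a => if w.length ≤ m then decide (∀ i < M, G i w a = true) else true,
        fun w => ?_, fun a => ?_⟩
      · by_cases hw : w.length ≤ m
        · simp only [hw, if_true]
          exact ih (fun i => G i w) (fun i hi => (hG i hi).1 w) (fun a => by simp)
        · simp only [hw, if_false]
          exact B.alt_const _ _ _
      · rw [hg a]
        constructor
        · intro h1 w hw
          by_cases hw' : w.length ≤ m
          · simp only [hw', if_true, decide_eq_true_iff]
            intro i hi
            exact ((hG i hi).2 a).1 (h1 i hi) w hw'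
          · simp only [hw', if_false]
        · intro h1 i hi
          rw [(hG i hi).2 a]
          intro w hw
          have h2 := h1 w (hw.trans (by nlinarith))
          simp only [hw, if_true, decide_eq_true_iff] at h2
          exact h2 i hi
    | true =>
      have hh' : ∀ i, ∃ G : List Bool → (I → Bool) → Bool, i < M →
          ((∀ w, Alt m r k false (G w)) ∧
            ∀ a, (h i a = true ↔ ∃ w : List Bool, w.length ≤ m ∧ G w a = true)) := by
        intro i
        by_cases hi : i < M
        · obtain ⟨G, hG⟩ := hh i hi
          exact ⟨G, fun _ => hG⟩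
        · exact ⟨fun _ _ => true, fun hi' => absurd hi' hi⟩
      choose G hG using hh'
      refine ⟨fun z a => if ∀ i < M, (B.comp i z).length ≤ m then
        decide (∀ i < M, G i (B.comp i z) a = true) else false, fun z => ?_, fun a => ?_⟩
      · by_cases hz : ∀ i < M, (B.comp i z).length ≤ m
        · simp only [if_pos hz]
          exact ih (fun i => G i (B.comp i z)) (fun i hi => (hG i hi).1 _) (fun a => by simp)
        · simp only [if_neg hz]
          exact B.alt_const _ _ _
      · rw [hg a]
        constructor
        · intro h1
          have h2 : ∀ i, ∃ w : List Bool, i < M → (w.length ≤ m ∧ G i w a = true) := by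
            intro i
            by_cases hi : i < M
            · obtain ⟨w, hw⟩ := ((hG i hi).2 a).1 (h1 i hi)
              exact ⟨w, fun _ => hw⟩
            · exact ⟨[], fun hi' => absurd hi' hi⟩
          choose w hw using h2
          have hc : ∀ i < M, B.comp i (B.tup w M) = w i := fun i hi => B.comp_tup M w i hi
          refine ⟨B.tup w M, B.length_tup M w (fun i hi => (hw i hi).1), ?_⟩
          have h3 : ∀ i < M, (B.comp i (B.tup w M)).length ≤ m := by
            intro i hi
            rw [hc i hi]
            exact (hw i hi).1
          beta_reduce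
          rw [if_pos h3, decide_eq_true_iff]
          intro i hi
          rw [hc i hi]
          exact (hw i hi).2
        · rintro ⟨z, _, h2⟩ i hi
          by_cases hz : ∀ i < M, (B.comp i z).length ≤ m
          · beta_reduce at h2
            rw [if_pos hz, decide_eq_true_iff] at h2
            exact ((hG i hi).2 a).2 ⟨_, hz i hi, h2 i hi⟩
          · beta_reduce at h2
            rw [if_neg hz] at h2
            exact absurd h2 Bool.false_ne_true

theorem Alt.disj {k : ℕ} {b : Bool} (M : ℕ) {g : (I → Bool) → Bool}
    (h : ℕ → (I → Bool) → Bool) (hh : ∀ i < M, Alt m r k b (h i))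
    (hg : ∀ a, (g a = true ↔ ∃ i < M, h i a = true)) :
    Alt (M * (2 * m + 2)) (M * r) k b g := by
  have h1 : Alt (M * (2 * m + 2)) (M * r) k (!b) (fun a => !g a) :=
    Alt.conj M (fun i a => !h i a) (fun i hi => B.alt_not (hh i hi)) (fun a => by
      have := hg a
      simp only [Bool.not_eq_true']
      rw [Bool.eq_false_iff, ne_eq, this]
      push Not
      simp only [ne_eq, Bool.not_eq_true])
  have h2 := B.alt_not h1
  simp only [Bool.not_not] at h2
  exact h2

end B

end Pool.Agent.H943R4.BA
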