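import Pool.Agent.H943R4.BA.Obj

/-!
# Gauge theorem for bounded formulas: locality of formulas, parameters for the coding
-/

set_option autoImplicit false

namespace Pool.Agent.H943R4.BA

namespace M

theorem size_succ (x : ℕ) : (x + 1).size ≤ x.size + 1 := by
  rw [Nat.size_le]
  have h := Nat.lt_size_self x
  rw [pow_succ]
  omega

theorem size_add (x y : ℕ) : (x + y).size ≤ x.size + y.size + 1 := by
  rw [Nat.size_le]
  have h1 := Nat.lt_size_self x
  have h2 := Nat.lt_size_self y
  have h3 : 2 ^ x.size ≤ 2 ^ (x.size + y.size) := Nat.pow_le_pow_right (by norm_num) (by omega)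
  have h4 : 2 ^ y.size ≤ 2 ^ (x.size + y.size) := Nat.pow_le_pow_right (by norm_num) (by omega)
  rw [pow_succ]
  omega

theorem size_mul (x y : ℕ) : (x * y).size ≤ x.size + y.size := by
  rw [Nat.size_le, pow_add]
  have h1 := Nat.lt_size_self x
  have h2 := Nat.lt_size_self y
  exact Nat.mul_lt_mul'' h1 h2

theorem size_self (x : ℕ) : x.size ≤ x := Nat.size_le.2 Nat.lt_two_pow_self

/-- terms depend on finitely many variables and have polynomially bounded values -/
theorem tm_local (t : Tm) : ∃ (r : ℕ) (q : Polynomial ℕ),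
    (∀ v v' : ℕ → ℕ, (∀ i < r, v i = v' i) → t.val v = t.val v') ∧
    ∀ (n : ℕ) (v : ℕ → ℕ), (∀ i < r, (v i).size ≤ n) → (t.val v).size ≤ q.eval n := by
  induction t with
  | var i =>
    refine ⟨i + 1, Polynomial.X, fun v v' h => h i (Nat.lt_succ_self i), fun n v h => ?_⟩
    rw [Polynomial.eval_X]
    exact h i (Nat.lt_succ_self i)
  | zero =>
    refine ⟨0, 0, fun v v' h => rfl, fun n v h => ?_⟩
    simp [Tm.val]
  | succ t ih =>
    obtain ⟨r, q, h1, h2⟩ := ih
    refine ⟨r, q + 1, fun v v' h => ?_, fun n v h => ?_⟩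
    · simp only [Tm.val]
      rw [h1 v v' h]
    · have h3 := h2 n v h
      have h4 := size_succ (t.val v)
      rw [Polynomial.eval_add, Polynomial.eval_one]
      simp only [Tm.val]
      omega
  | add s t ihs iht =>
    obtain ⟨r, q, h1, h2⟩ := ihs
    obtain ⟨r', q', h1', h2'⟩ := iht
    refine ⟨max r r', q + q' + 1, fun v v' h => ?_, fun n v h => ?_⟩
    · simp only [Tm.val]
      rw [h1 v v' fun i hi => h i (lt_of_lt_of_le hi (le_max_left _ _)),
        h1' v v' fun i hi => h i (lt_of_lt_of_le hi (le_max_right _ _))]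
    · have h3 := h2 n v fun i hi => h i (lt_of_lt_of_le hi (le_max_left _ _))
      have h3' := h2' n v fun i hi => h i (lt_of_lt_of_le hi (le_max_right _ _))
      have h4 := size_add (s.val v) (t.val v)
      rw [Polynomial.eval_add, Polynomial.eval_add, Polynomial.eval_one]
      simp only [Tm.val]
      omega
  | mul s t ihs iht =>
    obtain ⟨r, q, h1, h2⟩ := ihs
    obtain ⟨r', q', h1', h2'⟩ := iht
    refine ⟨max r r', q + q', fun v v' h => ?_, fun n v h => ?_⟩
    · simp only [Tm.val]
      rw [h1 v v' fun i hi => h i (lt_of_lt_of_le hi (le_max_left _ _)),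
        h1' v v' fun i hi => h i (lt_of_lt_of_le hi (le_max_right _ _))]
    · have h3 := h2 n v fun i hi => h i (lt_of_lt_of_le hi (le_max_left _ _))
      have h3' := h2' n v fun i hi => h i (lt_of_lt_of_le hi (le_max_right _ _))
      have h4 := size_mul (s.val v) (t.val v)
      rw [Polynomial.eval_add]
      simp only [Tm.val]
      omega
  | half t ih =>
    obtain ⟨r, q, h1, h2⟩ := ih
    refine ⟨r, q, fun v v' h => ?_, fun n v h => ?_⟩
    · simp only [Tm.val]
      rw [h1 v v' h]
    · exact (Nat.size_le_size (Nat.div_le_self _ _)).trans (h2 n v h)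
  | len t ih =>
    obtain ⟨r, q, h1, h2⟩ := ih
    refine ⟨r, q, fun v v' h => ?_, fun n v h => ?_⟩
    · simp only [Tm.val]
      rw [h1 v v' h]
    · exact (size_self _).trans (h2 n v h)
  | smash s t ihs iht =>
    obtain ⟨r, q, h1, h2⟩ := ihs
    obtain ⟨r', q', h1', h2'⟩ := iht
    refine ⟨max r r', q * q' + 1, fun v v' h => ?_, fun n v h => ?_⟩
    · simp only [Tm.val]
      rw [h1 v v' fun i hi => h i (lt_of_lt_of_le hi (le_max_left _ _)),
        h1' v v' fun i hi => h i (lt_of_lt_of_le hi (le_max_right _ _))]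
    · have h3 := h2 n v fun i hi => h i (lt_of_lt_of_le hi (le_max_left _ _))
      have h3' := h2' n v fun i hi => h i (lt_of_lt_of_le hi (le_max_right _ _))
      rw [Polynomial.eval_add, Polynomial.eval_mul, Polynomial.eval_one]
      simp only [Tm.val]
      rw [Nat.size_pow]
      have := Nat.mul_le_mul h3 h3'
      omega

/-- quantifiers -/
theorem upd {r n Q i a T : ℕ} {v v' : ℕ → ℕ} (hr : ∀ j < r, v j = v' j)
    (hs : ∀ j < r, (v j).size ≤ n) (ha : a ≤ T) (hT : T.size ≤ Q) :
    (∀ j < r, Function.update v i a j = Function.update v' i a j) ∧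
      ∀ j < r, (Function.update v i a j).size ≤ n + Q := by
  constructor
  · intro j hj
    by_cases h : j = i
    · subst h
      rw [Function.update_self, Function.update_self]
    · rw [Function.update_of_ne h, Function.update_of_ne h]
      exact hr j hj
  · intro j hj
    by_cases h : j = i
    · subst h
      rw [Function.update_self]
      have := Nat.size_le_size ha
      omega
    · rw [Function.update_of_ne h]
      have := hs j hj
      omega

theorem le_MM' (K n : ℕ) : n ^ (K + 1) ≤ MM K n := by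
  induction K with
  | zero => simp [MM]
  | succ K ih =>
    rw [pow_succ]
    exact Nat.mul_le_mul_right n (ih.trans (Nat.le_succ _))

theorem eval_le (p : Polynomial ℕ) {n : ℕ} (hn : 1 ≤ n) :
    p.eval n ≤ p.eval 1 * n ^ p.natDegree := by
  rw [Polynomial.eval_eq_sum_range, Polynomial.eval_eq_sum_range, Finset.sum_mul]
  refine Finset.sum_le_sum fun i hi => ?_
  rw [one_pow, mul_one]
  exact Nat.mul_le_mul_left _ (Nat.pow_le_pow_right hn (Nat.lt_succ_iff.1 (Finset.mem_range.1 hi)))

end M

open M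

/-- the truth of a formula depends on finitely many variables and on a polynomially bounded part
of the oracle -/
theorem local_holds (φ : Fm) : ∃ (r : ℕ) (P : Polynomial ℕ), ∀ (n : ℕ) (v v' : ℕ → ℕ)
    (A A' : ℕ → Bool), (∀ i < r, v i = v' i) → (∀ i < r, (v i).size ≤ n) →
    (∀ x < 2 ^ P.eval n, A x = A' x) → (φ.holds A v ↔ φ.holds A' v') := by
  induction φ with
  | eq s t =>
    obtain ⟨r, q, h1, h2⟩ := tm_local s
    obtain ⟨r', q', h1', h2'⟩ := tm_local t
    refine ⟨max r r', 0, fun n v v' A A' hv _ _ => ?_⟩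
    simp only [Fm.holds]
    rw [h1 v v' fun i hi => hv i (lt_of_lt_of_le hi (le_max_left _ _)),
      h1' v v' fun i hi => hv i (lt_of_lt_of_le hi (le_max_right _ _))]
  | le s t =>
    obtain ⟨r, q, h1, h2⟩ := tm_local s
    obtain ⟨r', q', h1', h2'⟩ := tm_local t
    refine ⟨max r r', 0, fun n v v' A A' hv _ _ => ?_⟩
    simp only [Fm.holds]
    rw [h1 v v' fun i hi => hv i (lt_of_lt_of_le hi (le_max_left _ _)),
      h1' v v' fun i hi => hv i (lt_of_lt_of_le hi (le_max_right _ _))]
  | ora t =>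
    obtain ⟨r, q, h1, h2⟩ := tm_local t
    refine ⟨r, q, fun n v v' A A' hv hs hA => ?_⟩
    simp only [Fm.holds]
    have h3 := h2 n v hs
    have h4 : t.val v < 2 ^ q.eval n := Nat.size_le.1 h3
    rw [← h1 v v' hv, hA _ h4]
  | neg φ ih =>
    obtain ⟨r, P, h⟩ := ih
    refine ⟨r, P, fun n v v' A A' hv hs hA => ?_⟩
    simp only [Fm.holds]
    exact not_congr (h n v v' A A' hv hs hA)
  | and φ ψ ih1 ih2 =>
    obtain ⟨r, P, h⟩ := ih1
    obtain ⟨r', P', h'⟩ := ih2
    refine ⟨max r r', P + P', fun n v v' A A' hv hs hA => ?_⟩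
    simp only [Fm.holds]
    rw [Polynomial.eval_add] at hA
    have e1 : 2 ^ P.eval n ≤ 2 ^ (P.eval n + P'.eval n) :=
      Nat.pow_le_pow_right (by norm_num) (by omega)
    have e2 : 2 ^ P'.eval n ≤ 2 ^ (P.eval n + P'.eval n) :=
      Nat.pow_le_pow_right (by norm_num) (by omega)
    exact and_congr
      (h n v v' A A' (fun i hi => hv i (lt_of_lt_of_le hi (le_max_left _ _)))
        (fun i hi => hs i (lt_of_lt_of_le hi (le_max_left _ _))) fun x hx => hA x (by omega))
      (h' n v v' A A' (fun i hi => hv i (lt_of_lt_of_le hi (le_max_right _ _)))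
        (fun i hi => hs i (lt_of_lt_of_le hi (le_max_right _ _))) fun x hx => hA x (by omega))
  | or φ ψ ih1 ih2 =>
    obtain ⟨r, P, h⟩ := ih1
    obtain ⟨r', P', h'⟩ := ih2
    refine ⟨max r r', P + P', fun n v v' A A' hv hs hA => ?_⟩
    simp only [Fm.holds]
    rw [Polynomial.eval_add] at hA
    have e1 : 2 ^ P.eval n ≤ 2 ^ (P.eval n + P'.eval n) :=
      Nat.pow_le_pow_right (by norm_num) (by omega)
    have e2 : 2 ^ P'.eval n ≤ 2 ^ (P.eval n + P'.eval n) :=
      Nat.pow_le_pow_right (by norm_num) (by omega)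
    exact or_congr
      (h n v v' A A' (fun i hi => hv i (lt_of_lt_of_le hi (le_max_left _ _)))
        (fun i hi => hs i (lt_of_lt_of_le hi (le_max_left _ _))) fun x hx => hA x (by omega))
      (h' n v v' A A' (fun i hi => hv i (lt_of_lt_of_le hi (le_max_right _ _)))
        (fun i hi => hs i (lt_of_lt_of_le hi (le_max_right _ _))) fun x hx => hA x (by omega))
  | all i t φ ih =>
    obtain ⟨r, q, h1, h2⟩ := tm_local t
    obtain ⟨r', P, h⟩ := ih
    refine ⟨max r r', P.comp (Polynomial.X + q), fun n v v' A A' hv hs hA => ?_⟩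
    simp only [Fm.holds]
    rw [Polynomial.eval_comp, Polynomial.eval_add, Polynomial.eval_X] at hA
    rw [← h1 v v' fun i hi => hv i (lt_of_lt_of_le hi (le_max_left _ _))]
    have hT := h2 n v fun i hi => hs i (lt_of_lt_of_le hi (le_max_left _ _))
    refine forall_congr' fun a => imp_congr_right fun ha => ?_
    obtain ⟨u1, u2⟩ := upd (i := i) (fun j hj => hv j (lt_of_lt_of_le hj (le_max_right _ _)))
      (fun j hj => hs j (lt_of_lt_of_le hj (le_max_right _ _))) ha hT
    exact h _ _ _ A A' u1 u2 hA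
  | ex i t φ ih =>
    obtain ⟨r, q, h1, h2⟩ := tm_local t
    obtain ⟨r', P, h⟩ := ih
    refine ⟨max r r', P.comp (Polynomial.X + q), fun n v v' A A' hv hs hA => ?_⟩
    simp only [Fm.holds]
    rw [Polynomial.eval_comp, Polynomial.eval_add, Polynomial.eval_X] at hA
    rw [← h1 v v' fun i hi => hv i (lt_of_lt_of_le hi (le_max_left _ _))]
    have hT := h2 n v fun i hi => hs i (lt_of_lt_of_le hi (le_max_left _ _))
    refine exists_congr fun a => and_congr_right fun ha => ?_
    obtain ⟨u1, u2⟩ := upd (i := i) (fun j hj => hv j (lt_of_lt_of_le hj (le_max_right _ _)))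
      (fun j hj => hs j (lt_of_lt_of_le hj (le_max_right _ _))) ha hT
    exact h _ _ _ A A' u1 u2 hA

/-- parameters for the coding -/
theorem exists_par (K₀ : ℕ) (r₀ : ℕ → ℕ) (P : ℕ → Polynomial ℕ) : ∃ K c : ℕ → ℕ,
    Ok K₀ r₀ K c ∧ ∀ e n, (c e).size ≤ n → (P e).eval n ≤ MM (K e) n := by
  refine ⟨fun e => K₀ + 2 + (P e).natDegree, fun e => 2 ^ (e + r₀ e + 3 + (P e).eval 1),
    ⟨fun e => ?_, fun e => ?_⟩, fun e n hn => ?_⟩
  · rw [Nat.size_pow]
    omega
  · omega
  · rw [Nat.size_pow] at hn
    have hn1 : 1 ≤ n := by omega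
    have h1 : (P e).eval 1 ≤ n := by omega
    calc (P e).eval n ≤ (P e).eval 1 * n ^ (P e).natDegree := eval_le _ hn1
      _ ≤ n * n ^ (P e).natDegree := Nat.mul_le_mul_right _ h1
      _ = n ^ ((P e).natDegree + 1) := by rw [pow_succ]; ring
      _ ≤ n ^ (K₀ + 2 + (P e).natDegree + 1) := Nat.pow_le_pow_right hn1 (by omega)
      _ ≤ MM (K₀ + 2 + (P e).natDegree) n := le_MM' _ _

end Pool.Agent.H943R4.BA
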