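import Pool.Agent.H943R4.BA.Obj

/-!
Task J (helper477): values of the coding terms.
-/

set_option autoImplicit false

namespace Pool.Agent.H943R4.BA

theorem val_numT (v : ℕ → ℕ) (n : ℕ) : (numT n).val v = n := by
  induction n with
  | zero => rfl
  | succ n ih =>
    show (numT n).val v + 1 = n + 1
    rw [ih]

theorem J.val_sumT (v : ℕ → ℕ) (r : ℕ) : (sumT r).val v = sm v r := by
  induction r with
  | zero => rfl
  | succ r ih =>
    show (sumT r).val v + v r = sm v (r + 1)
    rw [ih, sm, sm, Finset.sum_range_succ]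

theorem val_bigT (v : ℕ → ℕ) (r c : ℕ) : (bigT r c).val v = c + sm v r := by
  show (numT c).val v + (sumT r).val v = c + sm v r
  rw [val_numT, J.val_sumT]

theorem J.val_base (v : ℕ → ℕ) (r c : ℕ) :
    (Tm.smash (.succ .zero) (bigT r c)).val v = 2 ^ ln r c v := by
  show 2 ^ ((0 + 1 : ℕ).size * ((bigT r c).val v).size) = 2 ^ ln r c v
  rw [val_bigT, zero_add, Nat.size_one, one_mul]
  rfl

theorem val_codT (v : ℕ → ℕ) (r c s : ℕ) : (codT r c s).val v = cod (2 ^ ln r c v) v s := by
  induction s with
  | zero => rfl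
  | succ s ih =>
    show (codT r c s).val v * (Tm.smash (.succ .zero) (bigT r c)).val v + v s =
      cod (2 ^ ln r c v) v s * 2 ^ ln r c v + v s
    rw [ih, J.val_base]

theorem val_powT (v : ℕ → ℕ) (r c K : ℕ) : (powT r c K).val v = 2 ^ MM K (ln r c v) := by
  induction K with
  | zero => exact J.val_base v r c
  | succ K ih =>
    show 2 ^ (((powT r c K).val v).size * ((bigT r c).val v).size) =
      2 ^ ((MM K (ln r c v) + 1) * ln r c v)
    rw [ih, val_bigT, Nat.size_pow]
    rfl

theorem val_posT (v : ℕ → ℕ) (r K c e : ℕ) : (posT r K c e).val v = pos r K c e v := by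
  show (powT r c K).val v + (numT (2 ^ e)).val v * ((numT 2).val v * (codT r c r).val v + 1) =
    2 ^ MM K (ln r c v) + 2 ^ e * (2 * cod (2 ^ ln r c v) v r + 1)
  rw [val_powT, val_numT, val_numT, val_codT]

end Pool.Agent.H943R4.BA
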