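import Pool.Agent.H943R4.BA.PosInj
import Pool.Agent.H943R4.BA.Pos
import Pool.Agent.H943R4.BA.Local

/-!
# Task N: the coding oracle
-/

set_option autoImplicit false

namespace Pool.Agent.H943R4.BA

namespace N

open Classical in
/-- the oracle -/
noncomputable def Phi (r K c : ℕ → ℕ) (F : ℕ → Fm) (B : ℕ → Bool) (y : ℕ) : Bool :=
  if h : ∃ p : ℕ × (ℕ → ℕ), y = pos (r p.1) (K p.1) (c p.1) p.1 p.2 then
    decide ((F h.choose.1).holds (fun z => if _hz : z < y then Phi r K c F B z else false)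
      h.choose.2)
  else B y
termination_by y

theorem Phi_not (r K c : ℕ → ℕ) (F : ℕ → Fm) (B : ℕ → Bool) (y : ℕ)
    (h : ∀ e v, y ≠ pos (r e) (K e) (c e) e v) : Phi r K c F B y = B y := by
  rw [Phi, dif_neg]
  rintro ⟨p, hp⟩
  exact h _ _ hp

open Classical in
theorem Phi_pos {K₀ : ℕ} {r K c : ℕ → ℕ} (h : Ok K₀ r K c) (F : ℕ → Fm) (P : ℕ → Polynomial ℕ)
    (hr : ∀ (e n : ℕ) (v v' : ℕ → ℕ) (A A' : ℕ → Bool), (∀ i < r e, v i = v' i) →
      (∀ i < r e, (v i).size ≤ n) → (∀ x < 2 ^ (P e).eval n, A x = A' x) →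
      ((F e).holds A v ↔ (F e).holds A' v'))
    (hP : ∀ e n, (c e).size ≤ n → (P e).eval n ≤ MM (K e) n) (B : ℕ → Bool) (e : ℕ)
    (v : ℕ → ℕ) :
    Phi r K c F B (pos (r e) (K e) (c e) e v) = true ↔ (F e).holds (Phi r K c F B) v := by
  have hex : ∃ p : ℕ × (ℕ → ℕ), pos (r e) (K e) (c e) e v =
    pos (r p.1) (K p.1) (c p.1) p.1 p.2 := ⟨(e, v), rfl⟩
  rw [Phi, dif_pos hex, decide_eq_true_iff]
  obtain ⟨h1, h2⟩ := pos_inj h hex.choose_spec
  generalize hex.choose = p at *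
  obtain ⟨e', v'⟩ := p
  simp only at h1 h2
  subst h1
  symm
  apply hr e (ln (r e) (c e) v) v v' _ _ h2
  · intro i hi
    rw [Nat.size_le]
    exact lt_base hi
  · intro x hx
    have h3 := hP e (ln (r e) (c e) v) (size_le_ln _ _ _)
    have h4 : 2 ^ (P e).eval (ln (r e) (c e) v) ≤ 2 ^ MM (K e) (ln (r e) (c e) v) :=
      Nat.pow_le_pow_right (by norm_num) h3
    have h5 : x < pos (r e) (K e) (c e) e v := by
      unfold pos
      omega
    rw [dif_pos h5]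

end N

theorem exists_coding (K₀ : ℕ) : ∃ (r K c : ℕ → ℕ) (Φ : (ℕ → Bool) → (ℕ → Bool)),
    Ok K₀ r K c ∧ (∀ B y, (∀ e v, y ≠ pos (r e) (K e) (c e) e v) → Φ B y = B y) ∧
    ∀ B (φ : Fm), ∃ t : Tm, ∀ v, φ.holds (Φ B) v ↔ Φ B (t.val v) = true := by
  have : Nonempty Fm := ⟨.eq .zero .zero⟩
  obtain ⟨F, hF⟩ := exists_surjective_nat Fm
  choose r P hr using fun e : ℕ => local_holds (F e)
  obtain ⟨K, c, hok, hP⟩ := exists_par K₀ r P
  refine ⟨r, K, c, N.Phi r K c F, hok, fun B y h => N.Phi_not r K c F B y h, ?_⟩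
  intro B φ
  obtain ⟨e, rfl⟩ := hF φ
  refine ⟨posT (r e) (K e) (c e) e, fun v => ?_⟩
  rw [val_posT]
  exact (N.Phi_pos hok F P hr hP B e v).symm

end Pool.Agent.H943R4.BA
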