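import Pool.Agent.H943R4.BA.Obj
import Pool.Agent.H943R4.BA.AltA
import Pool.Agent.H943R4.BA.AltB

/-! Task D: bounded formulas are alternating quantifiers in front of shallow decision trees
(helper25). -/

set_option autoImplicit false

namespace Pool.Agent.H943R4.BA

open Finset H568R2 Pool.Agent.H676 Pool.Agent.H620R2.Gauge Pool.Agent.H591R3.PHG Pool.Agent.NPC

namespace D

theorem size_le_self (a : ℕ) : a.size ≤ a := Nat.size_le.2 Nat.lt_two_pow_self

theorem size_update {n m : ℕ} {v : ℕ → ℕ} (hv : ∀ i, (v i).size ≤ n) (i a : ℕ)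
    (ha : a.size ≤ m) (j : ℕ) : (Function.update v i a j).size ≤ n + m := by
  rw [Function.update_apply]
  split_ifs
  · omega
  · exact (hv j).trans (Nat.le_add_right _ _)

end D

theorem Tm.size_le (t : Tm) : ∃ q : Polynomial ℕ, ∀ (n : ℕ) (v : ℕ → ℕ),
    (∀ i, (v i).size ≤ n) → (t.val v).size ≤ q.eval n := by
  induction t with
  | var i => exact ⟨Polynomial.X, fun n v hv => by
      simp only [Tm.val, Polynomial.eval_X]
      exact hv i⟩
  | zero => exact ⟨0, fun n v hv => by simp [Tm.val]⟩
  | succ t ih =>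
    obtain ⟨q, hq⟩ := ih
    refine ⟨q + 1, fun n v hv => ?_⟩
    have h1 := hq n v hv
    simp only [Tm.val, Polynomial.eval_add, Polynomial.eval_one]
    refine Nat.size_le.2 ?_
    have h2 := Nat.size_le.1 h1
    have h3 : 0 < 2 ^ q.eval n := Nat.two_pow_pos _
    rw [pow_succ]
    omega
  | add s t ihs iht =>
    obtain ⟨q, hq⟩ := ihs
    obtain ⟨q', hq'⟩ := iht
    refine ⟨q + q' + 1, fun n v hv => ?_⟩
    have h1 := Nat.size_le.1 (hq n v hv)
    have h2 := Nat.size_le.1 (hq' n v hv)
    simp only [Tm.val, Polynomial.eval_add, Polynomial.eval_one]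
    refine Nat.size_le.2 ?_
    have h3 : 2 ^ q.eval n ≤ 2 ^ (q.eval n + q'.eval n) :=
      Nat.pow_le_pow_right (by norm_num) (by omega)
    have h4 : 2 ^ q'.eval n ≤ 2 ^ (q.eval n + q'.eval n) :=
      Nat.pow_le_pow_right (by norm_num) (by omega)
    rw [pow_succ]
    omega
  | mul s t ihs iht =>
    obtain ⟨q, hq⟩ := ihs
    obtain ⟨q', hq'⟩ := iht
    refine ⟨q + q', fun n v hv => ?_⟩
    have h1 := Nat.size_le.1 (hq n v hv)
    have h2 := Nat.size_le.1 (hq' n v hv)
    simp only [Tm.val, Polynomial.eval_add]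
    refine Nat.size_le.2 ?_
    rw [pow_add]
    exact Nat.mul_lt_mul'' h1 h2
  | half t ih =>
    obtain ⟨q, hq⟩ := ih
    exact ⟨q, fun n v hv => (Nat.size_le_size (Nat.div_le_self _ _)).trans (hq n v hv)⟩
  | len t ih =>
    obtain ⟨q, hq⟩ := ih
    exact ⟨q, fun n v hv => (D.size_le_self _).trans (hq n v hv)⟩
  | smash s t ihs iht =>
    obtain ⟨q, hq⟩ := ihs
    obtain ⟨q', hq'⟩ := iht
    refine ⟨q * q' + 1, fun n v hv => ?_⟩
    simp only [Tm.val, Polynomial.eval_add, Polynomial.eval_mul, Polynomial.eval_one]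
    rw [Nat.size_pow]
    exact Nat.succ_le_succ (Nat.mul_le_mul (hq n v hv) (hq' n v hv))

namespace D

variable {I : Type} [Fintype I] [DecidableEq I] {m r : ℕ}

theorem alt_dtr (k : ℕ) (b : Bool) {g : (I → Bool) → Bool} (h : DTr r g) : Alt m r k b g := by
  induction k generalizing b with
  | zero => exact h
  | succ k ih => exact Alt.up b (ih true)

omit [Fintype I] in
theorem dtr_coord (i : I) : DTr 1 (fun a : I → Bool => a i) :=
  Or.inr ⟨i, fun b => ⟨b, fun x => by simp⟩⟩

/-- families -/
theorem family {k : ℕ} {b : Bool} {φ : Fm} {P : Polynomial ℕ}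
    (hP : ∀ (n : ℕ) (v : ℕ → ℕ), (∀ i, (v i).size ≤ n) → ∀ N : ℕ, 2 ^ P.eval n ≤ N →
      ∃ g : (Fin N → Bool) → Bool, Alt (P.eval n) (P.eval n) k b g ∧
        ∀ A : ℕ → Bool, (g (fun i => A i) = true ↔ φ.holds A v))
    {n q N : ℕ} {v : ℕ → ℕ} (hv : ∀ i, (v i).size ≤ n) (i : ℕ) (hN : 2 ^ P.eval (n + q) ≤ N) :
    ∃ h : ℕ → (Fin N → Bool) → Bool, (∀ x, x.size ≤ q →
      Alt (P.eval (n + q)) (P.eval (n + q)) k b (h x)) ∧
      ∀ x, x.size ≤ q → ∀ A : ℕ → Bool,
        (h x (fun i => A i) = true ↔ φ.holds A (Function.update v i x)) := by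
  have h1 : ∀ x : ℕ, ∃ g : (Fin N → Bool) → Bool, x.size ≤ q →
      (Alt (P.eval (n + q)) (P.eval (n + q)) k b g ∧ ∀ A : ℕ → Bool,
        (g (fun i => A i) = true ↔ φ.holds A (Function.update v i x))) := by
    intro x
    by_cases hx : x.size ≤ q
    · obtain ⟨g, hg⟩ := hP (n + q) (Function.update v i x) (size_update hv i x hx) N hN
      exact ⟨g, fun _ => hg⟩
    · exact ⟨fun _ => false, fun h => absurd h hx⟩
  choose h hh using h1
  exact ⟨h, fun x hx => (hh x hx).1, fun x hx => (hh x hx).2⟩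

end D

/-- every formula of `Σᵇ_k` is given by `k` quantifiers in front of shallow decision trees -/
theorem compile {k : ℕ} {b : Bool} {φ : Fm} (h : Lv k b φ) : ∃ P : Polynomial ℕ,
    ∀ (n : ℕ) (v : ℕ → ℕ), (∀ i, (v i).size ≤ n) → ∀ N : ℕ, 2 ^ P.eval n ≤ N →
      ∃ g : (Fin N → Bool) → Bool, Alt (P.eval n) (P.eval n) k b g ∧
        ∀ A : ℕ → Bool, (g (fun i => A i) = true ↔ φ.holds A v) := by
  classical
  induction h with
  | eq k b s t =>
    refine ⟨0, fun n v hv N hN => ⟨fun _ => decide (s.val v = t.val v), Alt.const k b _, ?_⟩⟩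
    intro A
    simp [Fm.holds]
  | le k b s t =>
    refine ⟨0, fun n v hv N hN => ⟨fun _ => decide (s.val v ≤ t.val v), Alt.const k b _, ?_⟩⟩
    intro A
    simp [Fm.holds]
  | ora k b t =>
    obtain ⟨q, hq⟩ := t.size_le
    refine ⟨q + 1, fun n v hv N hN => ?_⟩
    have h1 := Nat.size_le.1 (hq n v hv)
    simp only [Polynomial.eval_add, Polynomial.eval_one] at hN ⊢
    have h2 : t.val v < N := by
      have h3 : 2 ^ q.eval n ≤ 2 ^ (q.eval n + 1) :=
        Nat.pow_le_pow_right (by norm_num) (by omega)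
      exact lt_of_lt_of_le (lt_of_lt_of_le h1 h3) hN
    refine ⟨fun a => a ⟨t.val v, h2⟩, ?_, fun A => Iff.rfl⟩
    exact Alt.mono le_rfl (Nat.le_add_left 1 _) (D.alt_dtr k b (D.dtr_coord _))
  | neg k b φ _ ih =>
    obtain ⟨P, hP⟩ := ih
    refine ⟨P, fun n v hv N hN => ?_⟩
    obtain ⟨g, hg, hg'⟩ := hP n v hv N hN
    refine ⟨fun a => !g a, ?_, ?_⟩
    · have := Alt.not hg
      rw [Bool.not_not] at this
      exact this
    · intro A
      have := hg' A
      simp only [Fm.holds]
      rw [← this]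
      simp
  | and k b φ ψ _ _ ih1 ih2 =>
    obtain ⟨P1, hP1⟩ := ih1
    obtain ⟨P2, hP2⟩ := ih2
    refine ⟨2 * (2 * (P1 + P2) + 2), fun n v hv N hN => ?_⟩
    simp only [Polynomial.eval_add, Polynomial.eval_mul, Polynomial.eval_ofNat] at hN ⊢
    obtain ⟨g1, hg1, hg1'⟩ := hP1 n v hv N
      ((Nat.pow_le_pow_right (by norm_num) (by omega)).trans hN)
    obtain ⟨g2, hg2, hg2'⟩ := hP2 n v hv N
      ((Nat.pow_le_pow_right (by norm_num) (by omega)).trans hN)
    refine ⟨fun a => g1 a && g2 a, ?_, ?_⟩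
    · have h1 := Alt.conj (m := P1.eval n + P2.eval n) (r := P1.eval n + P2.eval n) (k := k) (b := b)
        2 (g := fun a => g1 a && g2 a) (fun i => if i = 0 then g1 else g2) (by
          intro i _
          split_ifs
          · exact Alt.mono (Nat.le_add_right _ _) (Nat.le_add_right _ _) hg1
          · exact Alt.mono (Nat.le_add_left _ _) (Nat.le_add_left _ _) hg2) (by
          intro a
          constructor
          · intro h i _
            rw [Bool.and_eq_true] at h
            split_ifs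
            · exact h.1
            · exact h.2
          · intro h
            have h1 := h 0 (by norm_num)
            have h2 := h 1 (by norm_num)
            simp only [if_true, one_ne_zero, if_false] at h1 h2
            rw [h1, h2]
            rfl)
      exact Alt.mono le_rfl (by omega) h1
    · intro A
      rw [Bool.and_eq_true, hg1' A, hg2' A]
      rfl
  | or k b φ ψ _ _ ih1 ih2 =>
    obtain ⟨P1, hP1⟩ := ih1
    obtain ⟨P2, hP2⟩ := ih2
    refine ⟨2 * (2 * (P1 + P2) + 2), fun n v hv N hN => ?_⟩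
    simp only [Polynomial.eval_add, Polynomial.eval_mul, Polynomial.eval_ofNat] at hN ⊢
    obtain ⟨g1, hg1, hg1'⟩ := hP1 n v hv N
      ((Nat.pow_le_pow_right (by norm_num) (by omega)).trans hN)
    obtain ⟨g2, hg2, hg2'⟩ := hP2 n v hv N
      ((Nat.pow_le_pow_right (by norm_num) (by omega)).trans hN)
    refine ⟨fun a => g1 a || g2 a, ?_, ?_⟩
    · have h1 := Alt.disj (m := P1.eval n + P2.eval n) (r := P1.eval n + P2.eval n) (k := k) (b := b)
        2 (g := fun a => g1 a || g2 a) (fun i => if i = 0 then g1 else g2) (by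
          intro i _
          split_ifs
          · exact Alt.mono (Nat.le_add_right _ _) (Nat.le_add_right _ _) hg1
          · exact Alt.mono (Nat.le_add_left _ _) (Nat.le_add_left _ _) hg2) (by
          intro a
          constructor
          · intro h
            rw [Bool.or_eq_true] at h
            rcases h with h | h
            · exact ⟨0, by norm_num, by simpa using h⟩
            · exact ⟨1, by norm_num, by simpa using h⟩
          · rintro ⟨i, _, h⟩
            rw [Bool.or_eq_true]
            split_ifs at h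
            · exact Or.inl h
            · exact Or.inr h)
      exact Alt.mono le_rfl (by omega) h1
    · intro A
      rw [Bool.or_eq_true, hg1' A, hg2' A]
      rfl
  | sharpAll k b i t φ _ ih =>
    obtain ⟨P1, hP1⟩ := ih
    obtain ⟨q, hq⟩ := t.size_le
    refine ⟨(q + 1) * (2 * (P1.comp (Polynomial.X + q)) + 2), fun n v hv N hN => ?_⟩
    simp only [Polynomial.eval_add, Polynomial.eval_mul, Polynomial.eval_ofNat,
      Polynomial.eval_comp, Polynomial.eval_X, Polynomial.eval_one] at hN ⊢
    set m' := P1.eval (n + q.eval n) with hm'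
    have hle : 1 * (2 * m' + 2) ≤ (q.eval n + 1) * (2 * m' + 2) :=
      Nat.mul_le_mul_right _ (by omega)
    have hN' : 2 ^ P1.eval (n + q.eval n) ≤ N := by
      refine le_trans (Nat.pow_le_pow_right (by norm_num) ?_) hN
      omega
    obtain ⟨h, hh1, hh2⟩ := D.family hP1 hv i hN'
    have hM := hq n v hv
    set M := (t.val v).size + 1 with hMd
    have hsz : ∀ x, x < M → x.size ≤ q.eval n := fun x hx =>
      (D.size_le_self x).trans (by omega)
    refine ⟨fun a => decide (∀ x < M, h x a = true), ?_, ?_⟩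
    · have h1 := Alt.conj (m := m') (r := m') (k := k) (b := b) M
        (g := fun a => decide (∀ x < M, h x a = true)) h (fun x hx => hh1 x (hsz x hx))
        (fun a => by simp)
      have h2 : M * (2 * m' + 2) ≤ (q.eval n + 1) * (2 * m' + 2) :=
        Nat.mul_le_mul_right _ (by omega)
      have h3 : M * m' ≤ M * (2 * m' + 2) := Nat.mul_le_mul_left _ (by omega)
      exact Alt.mono h2 (h3.trans h2) h1
    · intro A
      rw [decide_eq_true_iff]
      simp only [Fm.holds, Tm.val]
      constructor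
      · intro h1 x hx
        exact (hh2 x (hsz x (by omega)) A).1 (h1 x (by omega))
      · intro h1 x hx
        exact (hh2 x (hsz x hx) A).2 (h1 x (by omega))
  | sharpEx k b i t φ _ ih =>
    obtain ⟨P1, hP1⟩ := ih
    obtain ⟨q, hq⟩ := t.size_le
    refine ⟨(q + 1) * (2 * (P1.comp (Polynomial.X + q)) + 2), fun n v hv N hN => ?_⟩
    simp only [Polynomial.eval_add, Polynomial.eval_mul, Polynomial.eval_ofNat,
      Polynomial.eval_comp, Polynomial.eval_X, Polynomial.eval_one] at hN ⊢
    set m' := P1.eval (n + q.eval n) with hm'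
    have hle : 1 * (2 * m' + 2) ≤ (q.eval n + 1) * (2 * m' + 2) :=
      Nat.mul_le_mul_right _ (by omega)
    have hN' : 2 ^ P1.eval (n + q.eval n) ≤ N := by
      refine le_trans (Nat.pow_le_pow_right (by norm_num) ?_) hN
      omega
    obtain ⟨h, hh1, hh2⟩ := D.family hP1 hv i hN'
    have hM := hq n v hv
    set M := (t.val v).size + 1 with hMd
    have hsz : ∀ x, x < M → x.size ≤ q.eval n := fun x hx =>
      (D.size_le_self x).trans (by omega)
    refine ⟨fun a => decide (∃ x < M, h x a = true), ?_, ?_⟩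
    · have h1 := Alt.disj (m := m') (r := m') (k := k) (b := b) M
        (g := fun a => decide (∃ x < M, h x a = true)) h (fun x hx => hh1 x (hsz x hx))
        (fun a => by simp)
      have h2 : M * (2 * m' + 2) ≤ (q.eval n + 1) * (2 * m' + 2) :=
        Nat.mul_le_mul_right _ (by omega)
      have h3 : M * m' ≤ M * (2 * m' + 2) := Nat.mul_le_mul_left _ (by omega)
      exact Alt.mono h2 (h3.trans h2) h1
    · intro A
      rw [decide_eq_true_iff]
      simp only [Fm.holds, Tm.val]
      constructor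
      · rintro ⟨x, hx, h1⟩
        exact ⟨x, by omega, (hh2 x (hsz x hx) A).1 h1⟩
      · rintro ⟨x, hx, h1⟩
        exact ⟨x, by omega, (hh2 x (hsz x (by omega)) A).2 h1⟩
  | ex k i t φ _ ih =>
    obtain ⟨P1, hP1⟩ := ih
    obtain ⟨q, hq⟩ := t.size_le
    refine ⟨2 * q + 1 + P1.comp (Polynomial.X + q), fun n v hv N hN => ?_⟩
    simp only [Polynomial.eval_add, Polynomial.eval_mul, Polynomial.eval_ofNat,
      Polynomial.eval_comp, Polynomial.eval_X, Polynomial.eval_one] at hN ⊢
    set m' := P1.eval (n + q.eval n) with hm'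
    have hN' : 2 ^ P1.eval (n + q.eval n) ≤ N := by
      refine le_trans (Nat.pow_le_pow_right (by norm_num) ?_) hN
      omega
    obtain ⟨h, hh1, hh2⟩ := D.family hP1 hv i hN'
    have hT := Nat.size_le.1 (hq n v hv)
    have hsz : ∀ x, x ≤ t.val v → x.size ≤ q.eval n := fun x hx =>
      (Nat.size_le_size hx).trans (hq n v hv)
    refine ⟨fun a => decide (∃ x ≤ t.val v, h x a = true), ?_, ?_⟩
    · have h1 := Alt.ex (m := m') (r := m') (k := k) (m' := q.eval n) hT
        (g := fun a => decide (∃ x ≤ t.val v, h x a = true)) h (fun x hx => hh1 x (hsz x hx))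
        (fun a => by simp)
      exact Alt.mono le_rfl (by omega) h1
    · intro A
      rw [decide_eq_true_iff]
      simp only [Fm.holds]
      constructor
      · rintro ⟨x, hx, h1⟩
        exact ⟨x, hx, (hh2 x (hsz x hx) A).1 h1⟩
      · rintro ⟨x, hx, h1⟩
        exact ⟨x, hx, (hh2 x (hsz x hx) A).2 h1⟩
  | all k i t φ _ ih =>
    obtain ⟨P1, hP1⟩ := ih
    obtain ⟨q, hq⟩ := t.size_le
    refine ⟨2 * q + 1 + P1.comp (Polynomial.X + q), fun n v hv N hN => ?_⟩
    simp only [Polynomial.eval_add, Polynomial.eval_mul, Polynomial.eval_ofNat,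
      Polynomial.eval_comp, Polynomial.eval_X, Polynomial.eval_one] at hN ⊢
    set m' := P1.eval (n + q.eval n) with hm'
    have hN' : 2 ^ P1.eval (n + q.eval n) ≤ N := by
      refine le_trans (Nat.pow_le_pow_right (by norm_num) ?_) hN
      omega
    obtain ⟨h, hh1, hh2⟩ := D.family hP1 hv i hN'
    have hT := Nat.size_le.1 (hq n v hv)
    have hsz : ∀ x, x ≤ t.val v → x.size ≤ q.eval n := fun x hx =>
      (Nat.size_le_size hx).trans (hq n v hv)
    refine ⟨fun a => decide (∀ x ≤ t.val v, h x a = true), ?_, ?_⟩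
    · have h1 := Alt.all (m := m') (r := m') (k := k) (m' := q.eval n) hT
        (g := fun a => decide (∀ x ≤ t.val v, h x a = true)) h (fun x hx => hh1 x (hsz x hx))
        (fun a => by simp)
      exact Alt.mono le_rfl (by omega) h1
    · intro A
      rw [decide_eq_true_iff]
      simp only [Fm.holds]
      constructor
      · intro h1 x hx
        exact (hh2 x (hsz x hx) A).1 (h1 x hx)
      · intro h1 x hx
        exact (hh2 x (hsz x hx) A).2 (h1 x hx)
  | up k b c φ _ ih =>
    obtain ⟨P, hP⟩ := ih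
    refine ⟨P, fun n v hv N hN => ?_⟩
    obtain ⟨g, hg, hg'⟩ := hP n v hv N hN
    exact ⟨g, Alt.up c hg, hg'⟩

end Pool.Agent.H943R4.BA
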