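import Pool.Agent.H943R4.BA.Obj

/-!
# Gauge theorem for the hierarchy of bounded formulas: from `Alt` to `QF` (task C)
-/

set_option autoImplicit false

namespace Pool.Agent.H943R4.BA

open Finset H568R2 Pool.Agent.H676 Pool.Agent.H620R2.Gauge Pool.Agent.H591R3.PHG Pool.Agent.NPC

theorem exists_QF {I : Type} [Fintype I] [DecidableEq I] {m r : ℕ} (k : ℕ) (b : Bool)
    (g : List Bool → (I → Bool) → Bool) (hg : ∀ y, Alt m r k b (g y)) :
    ∃ F : List Bool → (I → Bool) → Bool, (∀ y, DTr r (F y)) ∧ ∀ y, QF m F k b y = g y := by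
  induction k generalizing b g with
  | zero => exact ⟨g, hg, fun y => rfl⟩
  | succ k ih =>
    cases b with
    | true =>
      have hg' : ∀ y, ∃ G : List Bool → (I → Bool) → Bool, (∀ w, Alt m r k false (G w)) ∧
          ∀ a, (g y a = true ↔ ∃ w : List Bool, w.length ≤ m ∧ G w a = true) := hg
      choose G hG1 hG2 using hg'
      obtain ⟨F, hF1, hF2⟩ := ih false (fun z => G (unpair z).2 (unpair z).1)
        (fun z => hG1 (unpair z).2 (unpair z).1)
      refine ⟨F, hF1, fun y => ?_⟩
      funext a
      have h1 : ∀ w : List Bool, QF m F k false (pairBits w y) = G y w := by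
        intro w
        rw [hF2, unpair_pairBits]
      have h2 : QF m F (k + 1) true y a = true ↔ g y a = true := by
        rw [hG2 y a]
        simp only [QF, decide_eq_true_eq, h1]
      exact Bool.eq_iff_iff.mpr h2
    | false =>
      have hg' : ∀ y, ∃ G : List Bool → (I → Bool) → Bool, (∀ w, Alt m r k true (G w)) ∧
          ∀ a, (g y a = true ↔ ∀ w : List Bool, w.length ≤ m → G w a = true) := hg
      choose G hG1 hG2 using hg'
      obtain ⟨F, hF1, hF2⟩ := ih true (fun z => G (unpair z).2 (unpair z).1)
        (fun z => hG1 (unpair z).2 (unpair z).1)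
      refine ⟨F, hF1, fun y => ?_⟩
      funext a
      have h1 : ∀ w : List Bool, QF m F k true (pairBits w y) = G y w := by
        intro w
        rw [hF2, unpair_pairBits]
      have h2 : QF m F (k + 1) false y a = true ↔ g y a = true := by
        rw [hG2 y a]
        simp only [QF, decide_eq_true_eq, h1]
      exact Bool.eq_iff_iff.mpr h2

end Pool.Agent.H943R4.BA
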