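import Pool.Agent.H943R4.BA.AltA
import Pool.Agent.H943R4.BA.ToQF

/-! # Task G: the probability of the event -/

set_option autoImplicit false

namespace Pool.Agent.H943R4.BA

open Finset H568R2 Pool.Agent.H676 Pool.Agent.H620R2.Gauge Pool.Agent.H591R3.PHG Pool.Agent.NPC

open Classical in
theorem ev_bound {k n u N P : ℕ} (hn : 5 ≤ n) (hu : 8 * u ≤ n) {as : List ℕ}
    (hk : as.length = k + 1)
    (hlaw : Ex (nxt (1 / 2) (1 / 2 ^ (4 * n)) 0 (8 * n) (8 * n) law0)
      (Wt (X := Fin (2 ^ (u + 11))) (1 / 2 ^ (4 * n)) (1 / 2 ^ (2 * n)) (8 * n * 2 ^ (4 * n))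
        (1 / 256) (2 ^ (3 * u + 11)) (2 ^ (u + 9)) (pw as)) ≤ (9 / 10) ^ (2 ^ (u + 11)))
    (hP : P ≤ 2 ^ (2 * u)) (e : Idx (Fin (2 ^ (u + 11))) (8 * n :: pw as) → Fin N)
    (he : Function.Injective e) (g : Fin (2 ^ (u + 11)) → (Fin N → Bool) → Bool)
    (hg : ∀ j, Alt P P k true (g j)) :
    Ex unif (fun a : Fin N → Bool => if ∀ j,
      g j a ≠ Tr (8 * n :: pw as) (fun h => a (e h)) j then (1 : ℝ) else 0) ≤
      k * (2 ^ (n + 11 + k * (2 * P + 1) + 2) * (1 / 2) ^ (2 ^ (2 * u) + 1)) +
        3 * (1 / 2) ^ (2 ^ u) := by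
  have hKn : 2 ^ (u + 11) ≤ 2 ^ (n + 11) := Nat.pow_le_pow_right (by norm_num) (by omega)
  rw [Ex_overwrite e he]
  have hkey : ∀ a : Fin N → Bool, Ex (ber (1 / 2)) (fun z : Idx (Fin (2 ^ (u + 11))) (8 * n :: pw as) → Bool =>
      (fun a : Fin N → Bool => if ∀ j : Fin (2 ^ (u + 11)),
        g j a ≠ Tr (8 * n :: pw as) (fun h => a (e h)) j then (1 : ℝ) else 0)
        (fun i => if h : ∃ j, e j = i then z h.choose else a i)) ≤
      k * (2 ^ (n + 11 + k * (2 * P + 1) + 2) * (1 / 2) ^ (2 ^ (2 * u) + 1)) +
        3 * (1 / 2) ^ (2 ^ u) := by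
    intro a
    set G : List Bool → (Idx (Fin (2 ^ (u + 11))) (8 * n :: pw as) → Bool) → Bool := fun y =>
      if h : ∃ j : Fin (2 ^ (u + 11)), y = bitsOf (n + 11) j.val then
        (fun z => g h.choose (fun i => if h : ∃ j, e j = i then z h.choose else a i))
      else fun _ => false with hG
    have hGA : ∀ y, Alt P P k true (G y) := by
      intro y
      by_cases h : ∃ j : Fin (2 ^ (u + 11)), y = bitsOf (n + 11) j.val
      · have e0 : G y = (fun z => g h.choose
            (fun i => if h : ∃ j, e j = i then z h.choose else a i)) := by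
          rw [hG]; exact dif_pos h
        rw [e0]
        exact Alt.subst (fun (z : Idx (Fin (2 ^ (u + 11))) (8 * n :: pw as) → Bool) i =>
          if h : ∃ j, e j = i then z h.choose else a i)
          (fun f hf => DTr_overwrite e a hf) (hg h.choose)
      · have e0 : G y = (fun _ => false) := by
          rw [hG]; exact dif_neg h
        rw [e0]
        exact Alt.const k true false
    obtain ⟨F, hF, hQ⟩ := exists_QF k true G hGA
    have hcard : 2 ^ (2 * u) * Fintype.card (Fin (2 ^ (u + 11))) ≤ 2 ^ (3 * u + 11) := by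
      rw [Fintype.card_fin, ← pow_add]
      exact Nat.pow_le_pow_right (by norm_num) (by omega)
    have hlen2 : (pw as).length = k + 1 := by
      rw [pw, List.length_map]; exact hk
    have h1 := main_leaf (X := Fin (2 ^ (u + 11))) (n := n) (u := u) (D := 2 ^ (3 * u + 11)) (g := 2 ^ (u + 9))
      hn hu hcard k (pw as) hlen2 P (n + 11) F (fun y _ => (hF y).mono hP)
      (fun j => bitsOf (n + 11) j.val) (fun j => (length_bitsOf _ _).le) true
    have h2 := final_numbers hn hu
    refine le_trans (le_of_eq ?_) (h1.trans ?_)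
    · unfold Ms
      refine congrArg (Ex (ber (1 / 2))) (funext fun z => ?_)
      have e1 : (fun g => (fun i => if h : ∃ j, e j = i then z h.choose else a i)
          (e g)) = val (fun _ => none) z := by
        funext g
        have hex : ∃ j, e j = e g := ⟨g, rfl⟩
        show (if h : ∃ j, e j = e g then z h.choose else a (e g)) = z g
        rw [dif_pos hex]
        exact congrArg z (he hex.choose_spec)
      have e3 : ∀ j : Fin (2 ^ (u + 11)), QF P F k true (bitsOf (n + 11) j.val) z =
          g j (fun i => if h : ∃ j, e j = i then z h.choose else a i) := by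
        intro j
        rw [hQ]
        have hex : ∃ j' : Fin (2 ^ (u + 11)), bitsOf (n + 11) j.val = bitsOf (n + 11) j'.val := ⟨j, rfl⟩
        have e4 : hex.choose = j :=
          (Fin.ext (bitsOf_inj (lt_of_lt_of_le j.2 hKn)
            (lt_of_lt_of_le hex.choose.2 hKn) hex.choose_spec)).symm
        have e5 : G (bitsOf (n + 11) j.val) = (fun z => g hex.choose
            (fun i => if h : ∃ j, e j = i then z h.choose else a i)) := by
          rw [hG]; exact dif_pos hex
        rw [e5, e4]
      have e2 : (∀ j : Fin (2 ^ (u + 11)), g j (fun i => if h : ∃ j, e j = i then z h.choose else a i) ≠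
          Tr (8 * n :: pw as) (fun g => (fun i =>
            if h : ∃ j, e j = i then z h.choose else a i) (e g)) j) ↔
          ∀ j : Fin (2 ^ (u + 11)), QF P F k true (bitsOf (n + 11) j.val) z ≠
            Tr (8 * n :: pw as) (val (fun _ => none) z) j := by
        refine forall_congr' fun j => ?_
        rw [e1, e3 j]
      by_cases hz : ∀ j : Fin (2 ^ (u + 11)), QF P F k true (bitsOf (n + 11) j.val) z ≠
            Tr (8 * n :: pw as) (val (fun _ => none) z) j
      · rw [if_pos hz]
        exact if_pos (e2.2 hz)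
      · rw [if_neg hz]
        exact if_neg fun h => hz (e2.1 h)
    · linarith
  refine (Ex_mono unif_nonneg hkey).trans (le_of_eq ?_)
  exact Ex_const unif_sum _

end Pool.Agent.H943R4.BA
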