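import Pool.Agent.H943R4.BA.Obj

/-! Task E: the hard formulas, their level and their meaning. -/

set_option autoImplicit false

namespace Pool.Agent.H943R4.BA

open Finset H568R2 Pool.Agent.H676 Pool.Agent.H620R2.Gauge Pool.Agent.H591R3.PHG Pool.Agent.NPC

theorem E.tree_lv : ∀ (K : ℕ) (p : Tm) (i : ℕ), Lv K false (treeF K p i)
  | 0, _, i => Lv.sharpAll 0 false i (.var 2) _ (Lv.neg 0 false _ (Lv.ora 0 (!false) _))
  | K + 1, p, i => Lv.all K i _ _ (Lv.neg (K + 1) false _ (Lv.up K false (!false) _
      (E.tree_lv K (.add (.mul p baseT) (.var i)) (i + 1))))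

theorem hardF_lv (k : ℕ) : Lv (k + 1) true (hardF k) :=
  Lv.neg (k + 1) true _ (E.tree_lv (k + 1) (.var 0) (3 + (k + 1)))

theorem E.treeV_congr {A : ℕ → Bool} {B w : ℕ} {c c' : ℕ → ℕ} : ∀ (K : ℕ)
    (_ : ∀ m < K, c m = c' m) (p : ℕ), treeV A B w c K p ↔ treeV A B w c' K p
  | 0, _, _ => Iff.rfl
  | K + 1, h, p => by
      have ih := E.treeV_congr (A := A) (B := B) (w := w) K (fun m hm => h m (by omega))
      simp only [treeV, h K (by omega), ih]

theorem E.val_baseT (v : ℕ → ℕ) : baseT.val v = 2 ^ (v 1).size := by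
  simp only [baseT, Tm.val, zero_add, Nat.size_one, one_mul]

theorem treeF_holds (A : ℕ → Bool) (K : ℕ) (p : Tm) (i : ℕ) (v : ℕ → ℕ) (hi : 3 + K ≤ i)
    (hp : ∀ v' : ℕ → ℕ, (∀ j < i, v' j = v j) → p.val v' = p.val v) :
    (treeF K p i).holds A v ↔
      treeV A (2 ^ (v 1).size) (v 2).size (fun m => v (3 + m)) K (p.val v) := by
  induction K generalizing p i v with
  | zero =>
    simp only [treeF, Fm.holds, Tm.val, treeV]
    refine forall_congr' fun a => forall_congr' fun _ => ?_
    have h1 : p.val (Function.update v i a) = p.val v :=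
      hp _ fun j hj => Function.update_of_ne (by omega) _ _
    have h2 : (Function.update v i a) 1 = v 1 := Function.update_of_ne (by omega) _ _
    rw [E.val_baseT, h1, h2, Function.update_self, Bool.not_eq_true]
  | succ K ih =>
    simp only [treeF, Fm.holds, Tm.val, treeV]
    refine forall_congr' fun a => forall_congr' fun _ => not_congr ?_
    have hlt : ∀ j < i, (Function.update v i a) j = v j := fun j hj =>
      Function.update_of_ne (by omega) _ _
    have h1 : p.val (Function.update v i a) = p.val v := hp _ hlt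
    have h2 : (Function.update v i a) 1 = v 1 := hlt 1 (by omega)
    have h3 : (Function.update v i a) 2 = v 2 := hlt 2 (by omega)
    rw [ih (.add (.mul p baseT) (.var i)) (i + 1) (Function.update v i a) (by omega) (by
      intro v' hv'
      have h4 : p.val v' = p.val v := hp v' fun j hj => (hv' j (by omega)).trans (hlt j hj)
      simp only [Tm.val, E.val_baseT]
      rw [h4, h1, hv' 1 (by omega), hv' i (by omega)])]
    simp only [Tm.val, E.val_baseT]
    rw [h1, h2, h3, Function.update_self]
    exact E.treeV_congr K (fun m hm => hlt _ (by omega)) _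

theorem asg_size {as : List ℕ} {n j : ℕ} (hn : 1 ≤ n) (has : ∀ a ∈ as, a ≤ 64 * n)
    (hj : j < 2 ^ (n + 11)) (i : ℕ) : (asg as n j i).size ≤ 64 * n + 11 := by
  have key : ∀ a b : ℕ, a ≤ b → (2 ^ a - 1).size ≤ b := fun a b hab => by
    rw [Nat.size_le]
    calc 2 ^ a - 1 < 2 ^ a := Nat.sub_lt (by positivity) one_pos
      _ ≤ 2 ^ b := Nat.pow_le_pow_right (by norm_num) hab
  match i with
  | 0 =>
    change j.size ≤ _
    rw [Nat.size_le]
    exact hj.trans_le (Nat.pow_le_pow_right (by norm_num) (by omega))
  | 1 => exact key _ _ (by omega)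
  | 2 => exact key _ _ (by omega)
  | m + 3 =>
    refine key _ _ ?_
    by_cases hm : m < as.length
    · rw [List.getD_eq_getElem _ _ hm]
      have := has _ (List.getElem_mem hm)
      omega
    · rw [List.getD_eq_default _ _ (by omega)]
      omega

/-- the values of the nodes as functions of their numbers -/
def E.nod (B : ℕ) : List ℕ → (ℕ → Bool) → ℕ → Bool
  | [], leaf, p => leaf p
  | c :: cs, leaf, p => E.nod B cs (fun p => decide (∀ i < c, leaf (p * B + i) = false)) p

theorem E.Tr_num {X : Type} (B : ℕ) (r : X → ℕ) : ∀ (cs : List ℕ) (leaf : ℕ → Bool) (x : X),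
    Tr cs (fun g => leaf (num B r cs g)) x = E.nod B cs leaf (r x)
  | [], _, _ => rfl
  | c :: cs, leaf, x => by
      have ih := E.Tr_num B r cs (fun p => decide (∀ i < c, leaf (p * B + i) = false)) x
      rw [E.nod, ← ih, Tr]
      congr 1
      funext g
      rw [decide_eq_decide]
      constructor
      · intro h i hi
        exact h ⟨i, hi⟩
      · intro h i
        exact h i.val i.isLt

theorem E.nod_append (B c : ℕ) : ∀ (cs : List ℕ) (leaf : ℕ → Bool) (p : ℕ),
    E.nod B (cs ++ [c]) leaf p = decide (∀ i < c, E.nod B cs leaf (p * B + i) = false)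
  | [], _, _ => rfl
  | _ :: cs, _, p => E.nod_append B c cs _ p

theorem E.nod_treeV (A : ℕ → Bool) (B : ℕ) {n : ℕ} (hn : 1 ≤ n) (as : List ℕ) : ∀ p : ℕ,
    (E.nod B (8 * n :: pw as) A p = true ↔
      treeV A B (8 * n - 1) (fun m => 2 ^ (as.getD m 0) - 1) as.length p) := by
  induction as using List.reverseRecOn with
  | nil =>
    intro p
    simp only [pw, List.map_nil, E.nod, decide_eq_true_eq, List.length_nil, treeV]
    exact forall_congr' fun l => imp_congr (by omega) Iff.rfl
  | append_singleton as a ih =>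
    intro p
    have e : 8 * n :: pw (as ++ [a]) = (8 * n :: pw as) ++ [2 ^ a] := by
      simp [pw]
    rw [e, E.nod_append, decide_eq_true_eq, List.length_append, List.length_singleton]
    simp only [treeV]
    have e1 : (as ++ [a]).getD as.length 0 = a := by simp
    rw [e1]
    have hpos : 0 < 2 ^ a := by positivity
    refine forall_congr' fun i => imp_congr (by omega) ?_
    rw [← Bool.not_eq_true, ih]
    refine not_congr (E.treeV_congr _ (fun m hm => ?_) _)
    rw [List.getD_append _ _ _ _ hm]

/-- the meaning of the hard formula -/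
theorem hard_iff (A : ℕ → Bool) {k n K : ℕ} (hn : 1 ≤ n) {as : List ℕ} (hk : as.length = k + 1)
    (j : Fin K) :
    (hardF k).holds A (asg as n j) ↔
      Tr (8 * n :: pw as) (fun g => A (num (BB n) (fun j : Fin K => j.val) (8 * n :: pw as) g)) j =
        false := by
  rw [E.Tr_num, ← Bool.not_eq_true, E.nod_treeV A (BB n) hn, hk]
  simp only [hardF, Fm.holds]
  refine not_congr ?_
  rw [treeF_holds A (k + 1) (.var 0) (3 + (k + 1)) (asg as n j) le_rfl
    (fun v' hv' => hv' 0 (by omega))]
  have hsize : ∀ m : ℕ, (2 ^ m - 1).size = m := by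
    intro m
    apply le_antisymm
    · rw [Nat.size_le]
      exact Nat.sub_lt (by positivity) one_pos
    · rcases Nat.eq_zero_or_pos m with h | h
      · omega
      · have : m - 1 < (2 ^ m - 1).size := by
          rw [Nat.lt_size]
          have h1 : 2 ^ m = 2 * 2 ^ (m - 1) := by
            rw [← pow_succ']; congr 1; omega
          have h2 : 0 < 2 ^ (m - 1) := by positivity
          omega
        omega
  have h1 : (asg as n j 1).size = 64 * n + 3 := hsize _
  have h2 : (asg as n j 2).size = 8 * n - 1 := hsize _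
  rw [h1, h2]
  refine E.treeV_congr _ (fun m _ => ?_) _
  have : 3 + m = m + 3 := by omega
  simp only [this]
  rfl

end Pool.Agent.H943R4.BA
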