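import Pool.Agent.H943R4.BA.Obj

/-!
# Gauge theorem for the hierarchy of bounded formulas: the numbers of the nodes (task F)
-/

set_option autoImplicit false

namespace Pool.Agent.H943R4.BA

open Finset H568R2 Pool.Agent.H676 Pool.Agent.H620R2.Gauge Pool.Agent.H591R3.PHG Pool.Agent.NPC

theorem num_inj {X : Type} {B : ℕ} {r : X → ℕ} (hr : Function.Injective r) {cs : List ℕ}
    (hc : ∀ c ∈ cs, c ≤ B) : Function.Injective (num B r cs) := by
  induction cs with
  | nil => exact hr
  | cons c cs ih =>
    intro g h hgh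
    have ih' := ih (fun c' hc' => hc c' (List.mem_cons_of_mem _ hc'))
    have hcB : c ≤ B := hc c List.mem_cons_self
    change num B r cs g.1 * B + g.2.val = num B r cs h.1 * B + h.2.val at hgh
    have h1 : g.2.val < B := lt_of_lt_of_le g.2.2 hcB
    have h2 : h.2.val < B := lt_of_lt_of_le h.2.2 hcB
    have e1 : num B r cs g.1 = num B r cs h.1 := by
      rcases lt_trichotomy (num B r cs g.1) (num B r cs h.1) with hlt | he | hlt
      · have : (num B r cs g.1 + 1) * B ≤ num B r cs h.1 * B := Nat.mul_le_mul_right B hlt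
        rw [Nat.add_mul, Nat.one_mul] at this
        omega
      · exact he
      · have : (num B r cs h.1 + 1) * B ≤ num B r cs g.1 * B := Nat.mul_le_mul_right B hlt
        rw [Nat.add_mul, Nat.one_mul] at this
        omega
    have e2 : g.2.val = h.2.val := by
      rw [e1] at hgh
      exact Nat.add_left_cancel hgh
    exact Prod.ext (ih' e1) (Fin.ext e2)

theorem num_lt {X : Type} {B K : ℕ} {r : X → ℕ} (hr : ∀ x, r x < K) {cs : List ℕ}
    (hc : ∀ c ∈ cs, c ≤ B) (g : Idx X cs) : num B r cs g < K * B ^ cs.length := by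
  induction cs with
  | nil =>
    change r g < K * B ^ 0
    rw [pow_zero, Nat.mul_one]
    exact hr g
  | cons c cs ih =>
    have ih' := ih (fun c' hc' => hc c' (List.mem_cons_of_mem _ hc')) g.1
    have hcB : c ≤ B := hc c List.mem_cons_self
    have h1 : g.2.val < B := lt_of_lt_of_le g.2.2 hcB
    change num B r cs g.1 * B + g.2.val < K * B ^ (cs.length + 1)
    have h2 : (num B r cs g.1 + 1) * B ≤ K * B ^ cs.length * B := Nat.mul_le_mul_right B ih'
    rw [Nat.add_mul, Nat.one_mul] at h2
    rw [pow_succ, ← Nat.mul_assoc]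
    omega

end Pool.Agent.H943R4.BA
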