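import Pool.Agent.H943R4.BA.Compile
import Pool.Agent.H943R4.BA.Hard
import Pool.Agent.H943R4.BA.Num
import Pool.Agent.H943R4.BA.Ev
import Pool.Agent.H620R2.Gauge.Y
import Pool.Agent.H620R2.Gauge.Cover

/-!
# Gauge theorem for bounded formulas: covers and the null side
-/

set_option autoImplicit false

namespace Pool.Agent.H943R4.BA

open Finset H568R2 Pool.Agent.H676 Pool.Agent.H620R2.Gauge Pool.Agent.H591R3.PHG Pool.Agent.NPC

namespace H

/-- comparison with the bound of the library -/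
theorem bnd_ge {k n u E : ℕ} {Q : Polynomial ℕ} (hE : E ≤ Q.eval n) (h2 : 2 ≤ Q.eval n) :
    (k : ℝ) * (2 ^ E * (1 / 2) ^ (2 ^ (2 * u) + 1)) + 3 * (1 / 2) ^ (2 ^ u) ≤ bnd k Q n u := by
  have h3 : (2 : ℝ) ^ E ≤ 2 ^ Q.eval n := pow_le_pow_right₀ (by norm_num) hE
  have h4 : (3 : ℝ) ≤ 2 ^ Q.eval n := by
    calc (3 : ℝ) ≤ 2 ^ 2 := by norm_num
      _ ≤ 2 ^ Q.eval n := pow_le_pow_right₀ (by norm_num) h2
  have h5 : (0 : ℝ) ≤ k * (1 / 2) ^ (2 ^ (2 * u) + 1) := by positivity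
  have h6 : (0 : ℝ) ≤ (1 / 2) ^ (2 ^ u) := by positivity
  have h7 := mul_le_mul_of_nonneg_right h3 h5
  have h8 := mul_le_mul_of_nonneg_right h4 h6
  have hq1 : ((1 : ℝ) / (24 * 2 ^ (2 * u))) ^ k ≤ 1 := by
    apply pow_le_one₀ (by positivity)
    rw [div_le_one (by positivity)]
    have : (1 : ℝ) ≤ 2 ^ (2 * u) := one_le_pow₀ (by norm_num)
    linarith
  have h9 : (0 : ℝ) ≤ 2 ^ Q.eval n * (2 ^ u * (2 ^ (3 * u) + 1) *
      (1 - (1 / (24 * 2 ^ (2 * u))) ^ k) ^ (2 ^ n / (2 ^ (3 * u) + 1))) := by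
    have : (0 : ℝ) ≤ (1 - (1 / (24 * 2 ^ (2 * u))) ^ k) ^ (2 ^ n / (2 ^ (3 * u) + 1)) :=
      pow_nonneg (by linarith) _
    positivity
  have e : (k : ℝ) * (2 ^ E * (1 / 2) ^ (2 ^ (2 * u) + 1)) =
      2 ^ E * (k * (1 / 2) ^ (2 ^ (2 * u) + 1)) := by ring
  rw [e]
  unfold bnd
  linarith

end H

theorem cover_formula (k : ℕ) (ψ : Fm) (hψ : Lv k true ψ) (f : ℕ → ℝ)
    (hf : ∀ ε : ℝ, 0 < ε → ∃ᶠ N : ℕ in Filter.atTop, f N ≤ 2 ^ (Real.logb 2 N) ^ ε)
    (δ : ℝ) (hδ : 0 < δ) : ∃ S : Set (List Bool),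
    (∀ A : ℕ → Bool, Eqv A (hardF k) ψ →
      ∃ σ ∈ S, ∀ (i : ℕ) (h : i < σ.length), A i = σ[i]) ∧
    ∑' σ : S, ENNReal.ofReal (2 ^ (f σ.1.length - σ.1.length)) ≤ ENNReal.ofReal δ := by
  classical
  obtain ⟨P, hP⟩ := compile hψ
  set P' : Polynomial ℕ := P.comp (64 * Polynomial.X + 11) with hP'
  have hP'e : ∀ n, P'.eval n = P.eval (64 * n + 11) := by
    intro n
    rw [hP', Polynomial.eval_comp]
    simp
  obtain ⟨n, N, u, hn5, hQ1, hu, hN, hb⟩ := asym k
    (P' + Polynomial.X + Polynomial.C (2 * k) * P' + Polynomial.C (k + 13))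
    (P' + Polynomial.X + Polynomial.C 12 + (64 * Polynomial.X + 3) * Polynomial.C (k + 2))
    f hf δ hδ 5
  set Q : Polynomial ℕ := P' + Polynomial.X + Polynomial.C (2 * k) * P' + Polynomial.C (k + 13)
    with hQ
  have hQe : Q.eval n = P'.eval n + n + 2 * k * P'.eval n + (k + 13) := by
    rw [hQ]
    simp only [Polynomial.eval_add, Polynomial.eval_mul, Polynomial.eval_X, Polynomial.eval_C]
  have hQ2 : (P' + Polynomial.X + Polynomial.C 12 + (64 * Polynomial.X + 3) *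
      Polynomial.C (k + 2)).eval n = P'.eval n + n + 12 + (64 * n + 3) * (k + 2) := by
    simp only [Polynomial.eval_add, Polynomial.eval_mul, Polynomial.eval_X, Polynomial.eval_C,
      Polynomial.eval_ofNat]
  rw [hQ2] at hN
  have hu8 : 8 * u ≤ n := by
    have : 8 * u ≤ 8 * (k + 1) * u := by nlinarith [Nat.zero_le (k * u)]
    omega
  obtain ⟨as, hk, has, hX⟩ := exists_sizes hn5 k _ (inv_start hn5)
  have hlaw := hX (Fin (2 ^ (u + 11))) (2 ^ (3 * u + 11)) (2 ^ (u + 9)) (by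
      calc 16 * 2 ^ (3 * u + 11) = 2 ^ (3 * u + 15) := by
            rw [show 3 * u + 15 = 3 * u + 11 + 4 from rfl, pow_add _ (3 * u + 11) 4]; ring
        _ ≤ 2 ^ (4 * n) := Nat.pow_le_pow_right (by norm_num) (by omega)) (by
      rw [Fintype.card_fin]
      have : 2 ^ (u + 11) = 4 * 2 ^ (u + 9) := by
        rw [show u + 11 = u + 9 + 2 from rfl, pow_add _ (u + 9) 2]; ring
      omega)
  rw [Fintype.card_fin] at hlaw
  -- the functions given by the formula
  have hNP : 2 ^ P.eval (64 * n + 11) ≤ N := by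
    rw [← hP'e]
    refine le_trans (Nat.pow_le_pow_right (by norm_num) ?_) hN
    omega
  have hg : ∀ j : Fin (2 ^ (u + 11)), ∃ g : (Fin N → Bool) → Bool,
      Alt (P'.eval n) (P'.eval n) k true g ∧
        ∀ A : ℕ → Bool, (g (fun i => A i) = true ↔ ψ.holds A (asg as n j)) := by
    intro j
    rw [hP'e]
    refine hP (64 * n + 11) (asg as n j) (asg_size (by omega) has ?_) N hNP
    exact lt_of_lt_of_le j.2 (Nat.pow_le_pow_right (by norm_num) (by omega))
  choose g hgA hgh using hg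
  -- the positions
  have hcs : ∀ c ∈ 8 * n :: pw as, c ≤ BB n := by
    intro c hc
    unfold BB
    rcases List.mem_cons.1 hc with rfl | hc
    · have h1 : n < 2 ^ n := Nat.lt_two_pow_self
      have h2 : 8 * 2 ^ n = 2 ^ (n + 3) := by rw [pow_add]; ring
      have h3 : 2 ^ (n + 3) ≤ 2 ^ (64 * n + 3) := Nat.pow_le_pow_right (by norm_num) (by omega)
      omega
    · obtain ⟨a, ha, rfl⟩ := List.mem_map.1 hc
      exact Nat.pow_le_pow_right (by norm_num) (le_trans (has a ha) (by omega))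
  have hlen : (8 * n :: pw as).length = k + 2 := by
    rw [List.length_cons]
    unfold pw
    rw [List.length_map, hk]
  have hlt : ∀ h : Idx (Fin (2 ^ (u + 11))) (8 * n :: pw as),
      num (BB n) (fun j : Fin (2 ^ (u + 11)) => j.val) (8 * n :: pw as) h < N := by
    intro h
    refine lt_of_lt_of_le (num_lt (K := 2 ^ (u + 11)) (fun j => j.2) hcs h) ?_
    rw [hlen]
    unfold BB
    rw [← pow_mul, ← pow_add]
    refine le_trans (Nat.pow_le_pow_right (by norm_num) ?_) hN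
    omega
  have hinj : Function.Injective (fun h : Idx (Fin (2 ^ (u + 11))) (8 * n :: pw as) =>
      (⟨num (BB n) (fun j : Fin (2 ^ (u + 11)) => j.val) (8 * n :: pw as) h, hlt h⟩ : Fin N)) :=
    fun h h' heq => num_inj (fun a b hab => Fin.ext hab) hcs (congrArg Fin.val heq)
  have hPu : P'.eval n ≤ 2 ^ (2 * u) := by
    refine le_trans ?_ hQ1
    rw [hQe]
    omega
  have hev := ev_bound hn5 hu8 hk hlaw hPu _ hinj g hgA
  obtain ⟨Ev, hEv⟩ : ∃ Ev : (Fin N → Bool) → Prop, ∀ a, Ev a ↔ ∀ j, g j a ≠ Tr (8 * n :: pw as)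
    (fun h => a (⟨num (BB n) (fun j : Fin (2 ^ (u + 11)) => j.val) (8 * n :: pw as) h,
      hlt h⟩ : Fin N)) j := ⟨_, fun a => Iff.rfl⟩
  have hev' : Ex unif (fun a : Fin N → Bool => if Ev a then (1 : ℝ) else 0) ≤ bnd k Q n u := by
    have hfun : (fun a : Fin N → Bool => if Ev a then (1 : ℝ) else 0) =
        fun a => if ∀ j, g j a ≠ Tr (8 * n :: pw as)
          (fun h => a (⟨num (BB n) (fun j : Fin (2 ^ (u + 11)) => j.val) (8 * n :: pw as) h,
            hlt h⟩ : Fin N)) j then (1 : ℝ) else 0 :=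
      funext fun a => if_congr (hEv a) rfl rfl
    rw [hfun]
    refine le_trans hev (H.bnd_ge ?_ ?_)
    · rw [hQe]
      have : k * (2 * P'.eval n + 1) = 2 * k * P'.eval n + k := by ring
      omega
    · rw [hQe]
      omega
  refine ⟨(fun a : Fin N → Bool => List.ofFn a) '' {a | Ev a}, ?_, ?_⟩
  · intro A hA
    refine ⟨List.ofFn (fun i : Fin N => A i), ⟨fun i : Fin N => A i, ?_, rfl⟩, ?_⟩
    · refine (hEv _).2 ?_
      intro j heq
      have h1 := hgh j A
      have h2 := hard_iff A (show 1 ≤ n by omega) hk j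
      have h3 := hA (asg as n j)
      have h4 : g j (fun i => A i) = true ↔ Tr (8 * n :: pw as)
          (fun h => A (num (BB n) (fun j : Fin (2 ^ (u + 11)) => j.val) (8 * n :: pw as) h)) j =
            false := by
        rw [h1, ← h3, h2]
      have h5 : g j (fun i => A i) = Tr (8 * n :: pw as)
          (fun h => A (num (BB n) (fun j : Fin (2 ^ (u + 11)) => j.val) (8 * n :: pw as) h)) j :=
        heq
      rw [h5] at h4
      cases hb : Tr (8 * n :: pw as)
          (fun h => A (num (BB n) (fun j : Fin (2 ^ (u + 11)) => j.val) (8 * n :: pw as) h)) j with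
      | true => rw [hb] at h4; exact absurd (h4.1 rfl) (by simp)
      | false => rw [hb] at h4; exact absurd (h4.2 rfl) (by simp)
    · intro i hi
      rw [List.getElem_ofFn]
  · have hinj : Set.InjOn (fun a : Fin N → Bool => List.ofFn a) {a | Ev a} :=
      fun a _ b _ h => List.ofFn_injective h
    rw [tsum_image (fun σ : List Bool => ENNReal.ofReal (2 ^ (f σ.length - σ.length))) hinj]
    simp only [List.length_ofFn]
    rw [tsum_fintype, Finset.sum_const, nsmul_eq_mul, Finset.card_univ]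
    rw [← ENNReal.ofReal_natCast, ← ENNReal.ofReal_mul (by positivity)]
    apply ENNReal.ofReal_le_ofReal
    have h1 : Fintype.card {a : Fin N → Bool | Ev a} =
        (univ.filter (fun a : Fin N → Bool => Ev a)).card := by
      rw [← Fintype.card_subtype]
      rfl
    have h2 := card_of_Ex (fun a : Fin N → Bool => Ev a)
    have h3 : (2 : ℝ) ^ (f N - N) = 2 ^ (-(N : ℝ)) * 2 ^ f N := by
      rw [← Real.rpow_add (by norm_num)]; congr 1; ring
    rw [h1, h3, ← mul_assoc, h2]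
    exact (mul_le_mul_of_nonneg_right hev' (by positivity)).trans hb

theorem null_side (f : ℕ → ℝ)
    (hf : ∀ ε : ℝ, 0 < ε → ∃ᶠ N : ℕ in Filter.atTop, f N ≤ 2 ^ (Real.logb 2 N) ^ ε)
    (O : Set (ℕ → Bool)) (hO : ∀ A ∈ O, ∃ (k : ℕ) (ψ : Fm), Lv k true ψ ∧ Eqv A (hardF k) ψ) :
    Null f O := by
  intro δ hδ
  obtain ⟨δ', hδ', hsum⟩ := ENNReal.exists_pos_sum_of_countable
    (ENNReal.ofReal_pos.2 hδ).ne' {p : ℕ × Fm // Lv p.1 true p.2}
  choose S hS hSs using fun p : {p : ℕ × Fm // Lv p.1 true p.2} =>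
    cover_formula p.1.1 p.1.2 p.2 f hf (δ' p) (by exact_mod_cast hδ' p)
  refine ⟨⋃ p, S p, ?_, ?_⟩
  · intro A hA
    obtain ⟨k, ψ, h1, h2⟩ := hO A hA
    obtain ⟨σ, hσ, hE⟩ := hS ⟨(k, ψ), h1⟩ A h2
    exact ⟨σ, Set.mem_iUnion.2 ⟨_, hσ⟩, hE⟩
  · refine (ENNReal.tsum_iUnion_le_tsum (fun σ : List Bool =>
      ENNReal.ofReal (2 ^ (f σ.length - σ.length))) S).trans ?_
    refine (ENNReal.tsum_le_tsum hSs).trans ?_
    refine le_trans (le_of_eq ?_) hsum.le
    congr 1
    funext p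
    exact ENNReal.ofReal_coe_nnreal

end Pool.Agent.H943R4.BA
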