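import Mathlib

/-!
# Bounded formulas with an oracle

The language of bounded arithmetic (0, S, +, *, half, length, smash, equality, order) with an
additional unary predicate for a set of natural numbers, the bounded formulas of this language and
their hierarchy, and null sets of sets of natural numbers for a gauge.
-/

set_option autoImplicit false

namespace Pool.Agent.H943R4.BA

/-- The terms of the language of bounded arithmetic. -/
inductive Tm : Type
  | var (i : ℕ) : Tm
  | zero : Tm
  | succ (t : Tm) : Tm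
  | add (s t : Tm) : Tm
  | mul (s t : Tm) : Tm
  | half (t : Tm) : Tm
  | len (t : Tm) : Tm
  | smash (s t : Tm) : Tm
  deriving Countable

/-- The value of a term in the natural numbers: `half` is the floor of `x / 2`, `len` is the length
`|x|` of the binary expansion, and `smash` is `2 ^ (|x| * |y|)`. -/
def Tm.val (v : ℕ → ℕ) : Tm → ℕ
  | .var i => v i
  | .zero => 0
  | .succ t => t.val v + 1
  | .add s t => s.val v + t.val v
  | .mul s t => s.val v * t.val v
  | .half t => t.val v / 2
  | .len t => (t.val v).size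
  | .smash s t => 2 ^ ((s.val v).size * (t.val v).size)

/-- The bounded formulas: equations, inequalities, `t` is in the oracle, negation, conjunction,
disjunction, and the quantifiers `∀ x_i ≤ t` and `∃ x_i ≤ t`. -/
inductive Fm : Type
  | eq (s t : Tm) : Fm
  | le (s t : Tm) : Fm
  | ora (t : Tm) : Fm
  | neg (φ : Fm) : Fm
  | and (φ ψ : Fm) : Fm
  | or (φ ψ : Fm) : Fm
  | all (i : ℕ) (t : Tm) (φ : Fm) : Fm
  | ex (i : ℕ) (t : Tm) (φ : Fm) : Fm
  deriving Countable

/-- The truth of a formula in the natural numbers, for the oracle `A` and the values `v` of the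
variables. (The bound of a quantifier is evaluated before its variable gets a new value.) -/
def Fm.holds (A : ℕ → Bool) : Fm → (ℕ → ℕ) → Prop
  | .eq s t, v => s.val v = t.val v
  | .le s t, v => s.val v ≤ t.val v
  | .ora t, v => A (t.val v) = true
  | .neg φ, v => ¬ φ.holds A v
  | .and φ ψ, v => φ.holds A v ∧ ψ.holds A v
  | .or φ ψ, v => φ.holds A v ∨ ψ.holds A v
  | .all i t φ, v => ∀ a ≤ t.val v, φ.holds A (Function.update v i a)
  | .ex i t φ, v => ∃ a ≤ t.val v, φ.holds A (Function.update v i a)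

/-- `Lv k true φ` means that the bounded formula `φ` is in the class `Σᵇ_k`, and `Lv k false φ`
that it is in the class `Πᵇ_k`: all the classes contain the atomic formulas and are closed under
conjunction, disjunction and the sharply bounded quantifiers `∀ x_i ≤ |t|` and `∃ x_i ≤ |t|`;
negation exchanges `Σᵇ_k` and `Πᵇ_k`; the classes `Σᵇ_(k+1)` are closed under bounded existential
quantifiers, the classes `Πᵇ_(k+1)` under bounded universal quantifiers; and `Σᵇ_k` and `Πᵇ_k`
are contained in `Σᵇ_(k+1)` and in `Πᵇ_(k+1)`. -/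
inductive Lv : ℕ → Bool → Fm → Prop
  | eq (k : ℕ) (b : Bool) (s t : Tm) : Lv k b (.eq s t)
  | le (k : ℕ) (b : Bool) (s t : Tm) : Lv k b (.le s t)
  | ora (k : ℕ) (b : Bool) (t : Tm) : Lv k b (.ora t)
  | neg (k : ℕ) (b : Bool) (φ : Fm) : Lv k (!b) φ → Lv k b (.neg φ)
  | and (k : ℕ) (b : Bool) (φ ψ : Fm) : Lv k b φ → Lv k b ψ → Lv k b (.and φ ψ)
  | or (k : ℕ) (b : Bool) (φ ψ : Fm) : Lv k b φ → Lv k b ψ → Lv k b (.or φ ψ)
  | sharpAll (k : ℕ) (b : Bool) (i : ℕ) (t : Tm) (φ : Fm) : Lv k b φ → Lv k b (.all i (.len t) φ)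
  | sharpEx (k : ℕ) (b : Bool) (i : ℕ) (t : Tm) (φ : Fm) : Lv k b φ → Lv k b (.ex i (.len t) φ)
  | ex (k : ℕ) (i : ℕ) (t : Tm) (φ : Fm) : Lv (k + 1) true φ → Lv (k + 1) true (.ex i t φ)
  | all (k : ℕ) (i : ℕ) (t : Tm) (φ : Fm) : Lv (k + 1) false φ → Lv (k + 1) false (.all i t φ)
  | up (k : ℕ) (b c : Bool) (φ : Fm) : Lv k b φ → Lv (k + 1) c φ

/-- The formulas `φ` and `ψ` are equivalent in the natural numbers with the oracle `A`. -/
def Eqv (A : ℕ → Bool) (φ ψ : Fm) : Prop := ∀ v : ℕ → ℕ, φ.holds A v ↔ ψ.holds A v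

/-- The set `X` of oracles is a null set for the gauge `f`: for every `δ > 0` there is a family
`S` of finite bit sequences such that every oracle in `X`, as an infinite bit sequence, extends one
of them, and the sum of `2 ^ (f |σ| - |σ|)` over `S` is at most `δ`. For `f = 0` these are the
Lebesgue null sets, and for `f n = (1 - s) n` the null sets of the `s`-dimensional Hausdorff
measure. -/
def Null (f : ℕ → ℝ) (X : Set (ℕ → Bool)) : Prop :=
  ∀ δ : ℝ, 0 < δ → ∃ S : Set (List Bool),
    (∀ A ∈ X, ∃ σ ∈ S, ∀ (i : ℕ) (h : i < σ.length), A i = σ[i]) ∧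
    ∑' σ : S, ENNReal.ofReal (2 ^ (f σ.1.length - σ.1.length)) ≤ ENNReal.ofReal δ

end Pool.Agent.H943R4.BA
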