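import Pool.Agent.H943R4.BA.Obj
import Pool.Agent.H620R2.Gauge.S
import Pool.Agent.H620R2.Gauge.M

/-! The other direction: too many oracles for which the formulas are equivalent to atomic ones. -/

set_option autoImplicit false

namespace Pool.Agent.H943R4.BA

open Finset Pool.Agent.NPC Pool.Agent.H620R2.Gauge

open Classical in
/-- the non-null side, from the coding oracle and the sparsity of the positions -/
theorem R.not_null_of (hcod : ∀ K₀ : ℕ, ∃ (r K c : ℕ → ℕ) (Φ : (ℕ → Bool) → (ℕ → Bool)),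
      Ok K₀ r K c ∧ (∀ B y, (∀ e v, y ≠ pos (r e) (K e) (c e) e v) → Φ B y = B y) ∧
      ∀ B (φ : Fm), ∃ t : Tm, ∀ v, φ.holds (Φ B) v ↔ Φ B (t.val v) = true)
    (hsparse : ∀ {K₀ : ℕ} {r K c : ℕ → ℕ}, Ok K₀ r K c → ∀ {ε : ℝ}, 0 < ε →
      2 < ε * (K₀ + 1) → ∀ᶠ N : ℕ in Filter.atTop, (((Finset.range N).filter
        (fun y => ∃ e v, y = pos (r e) (K e) (c e) e v)).card : ℝ) ≤ 2 ^ (Real.logb 2 N) ^ ε)
    (f : ℕ → ℝ) (ε : ℝ) (hε : 0 < ε)
    (hf : ∀ᶠ N : ℕ in Filter.atTop, 2 ^ (Real.logb 2 N) ^ ε < f N) (O : Set (ℕ → Bool))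
    (hO : ∀ A : ℕ → Bool, (∀ φ : Fm, ∃ t : Tm, ∀ v, φ.holds A v ↔ A (t.val v) = true) → A ∈ O) :
    ¬ Null f O := by
  intro hnull
  obtain ⟨K₀, hK⟩ := exists_nat_gt (2 / ε)
  have hK' : 2 < ε * (K₀ + 1) := by
    rw [div_lt_iff₀ hε] at hK
    nlinarith
  obtain ⟨r, K, c, Φ, hok, hΦ, hΦO⟩ := hcod K₀
  have hsp := hsparse hok hε hK'
  obtain ⟨N₀, hN₀⟩ := Filter.eventually_atTop.1 (hf.and hsp)
  -- the bound for the short sequences
  obtain ⟨δ, hδ, hδ1, hδ2⟩ : ∃ δ : ℝ, 0 < δ ∧ δ < 1 ∧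
      ∀ N < N₀, δ < 2 ^ (f N - N) := by
    have h1 : ∀ M : ℕ, ∃ δ : ℝ, 0 < δ ∧ δ < 1 ∧ ∀ N < M, δ < 2 ^ (f N - N) := by
      intro M
      induction M with
      | zero => exact ⟨1 / 2, by norm_num, by norm_num, fun N hN => by omega⟩
      | succ M ih =>
        obtain ⟨δ, h1, h2, h3⟩ := ih
        have h4 : (0 : ℝ) < 2 ^ (f M - M) := Real.rpow_pos_of_pos (by norm_num) _
        refine ⟨min δ (2 ^ (f M - M) / 2), lt_min h1 (by positivity),
          (min_le_left _ _).trans_lt h2, ?_⟩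
        intro N hN
        rcases Nat.lt_succ_iff_lt_or_eq.1 hN with h | h
        · exact (min_le_left _ _).trans_lt (h3 N h)
        · subst h
          exact (min_le_right _ _).trans_lt (by linarith)
    exact h1 N₀
  obtain ⟨S, hS, hsum⟩ := hnull δ hδ
  have hm := mass (fun (B : Oracle) (y : List Bool) => Φ (fun i => B (str i)) (idx y))
    {y | ∃ e v, idx y = pos (r e) (K e) (c e) e v} (fun B y hy => by
      have h1 := hΦ (fun i => B (str i)) (idx y) (fun e v h => hy ⟨e, v, h⟩)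
      rw [str_idx] at h1
      exact h1) S (fun B => by
      obtain ⟨σ, hσ, h⟩ := hS (Φ (fun i => B (str i))) (hO _ (hΦO _))
      refine ⟨σ, hσ, fun i hi => ?_⟩
      show Φ (fun i => B (str i)) (idx (str i)) = σ[i]
      rw [idx_str]
      exact h i hi)
  have hle : ∀ σ : S, ENNReal.ofReal
      (2 ^ ((((Finset.range σ.1.length).filter
        (fun i => str i ∈ {y | ∃ e v, idx y = pos (r e) (K e) (c e) e v})).card : ℝ) -
          (σ.1.length : ℝ))) ≤
      ENNReal.ofReal (2 ^ (f σ.1.length - σ.1.length)) := by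
    intro σ
    have hlen : N₀ ≤ σ.1.length := by
      by_contra hlt
      push Not at hlt
      have h1 := hδ2 _ hlt
      have h2 : ENNReal.ofReal (2 ^ (f σ.1.length - σ.1.length)) ≤ ENNReal.ofReal δ :=
        (ENNReal.le_tsum σ).trans hsum
      have h3 := (ENNReal.ofReal_le_ofReal_iff hδ.le).1 h2
      linarith
    obtain ⟨h1, h2⟩ := hN₀ _ hlen
    apply ENNReal.ofReal_le_ofReal
    apply Real.rpow_le_rpow_of_exponent_le (by norm_num)
    have h3 : (((Finset.range σ.1.length).filter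
        (fun i => str i ∈ {y | ∃ e v, idx y = pos (r e) (K e) (c e) e v})).card : ℝ) ≤
        2 ^ (Real.logb 2 σ.1.length) ^ ε := by
      refine le_trans (le_of_eq ?_) h2
      have h4 : (Finset.range σ.1.length).filter
          (fun i => str i ∈ {y | ∃ e v, idx y = pos (r e) (K e) (c e) e v}) =
          (Finset.range σ.1.length).filter (fun y => ∃ e v, y = pos (r e) (K e) (c e) e v) := by
        apply Finset.filter_congr
        intro i _
        rw [Set.mem_ofPred_eq, idx_str]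
      rw [h4]
    linarith
  have h1 : (1 : ENNReal) ≤ ENNReal.ofReal δ := hm.trans ((ENNReal.tsum_le_tsum hle).trans hsum)
  rw [← ENNReal.ofReal_one] at h1
  have h2 := (ENNReal.ofReal_le_ofReal_iff hδ.le).1 h1
  linarith

end Pool.Agent.H943R4.BA
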