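import Pool.Agent.H943R4.BA.PosInj

/-!
# Task Q: the positions are sparse
-/

set_option autoImplicit false

namespace Pool.Agent.H943R4.BA

namespace Q

theorem aux_exp {e e' a a' : ℕ} (h : 2 ^ e * (2 * a + 1) = 2 ^ e' * (2 * a' + 1)) (hlt : e < e') :
    False := by
  obtain ⟨d, rfl⟩ := Nat.exists_eq_add_of_lt hlt
  have h1 : 2 ^ (e + d + 1) * (2 * a' + 1) = 2 ^ e * (2 * (2 ^ d * (2 * a' + 1))) := by ring
  rw [h1] at h
  have h2 := Nat.eq_of_mul_eq_mul_left (by positivity) h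
  omega

theorem exp_eq {e e' a a' : ℕ} (h : 2 ^ e * (2 * a + 1) = 2 ^ e' * (2 * a' + 1)) : e = e' := by
  rcases lt_trichotomy e e' with h1 | h1 | h1
  · exact (aux_exp h h1).elim
  · exact h1
  · exact (aux_exp h.symm h1).elim

/-- the second summand -/
def rest (r c e : ℕ) (v : ℕ → ℕ) : ℕ := 2 ^ e * (2 * cod (2 ^ ln r c v) v r + 1)

theorem rest_lt_sq {K₀ : ℕ} {r K c : ℕ → ℕ} (h : Ok K₀ r K c) (e : ℕ) (v : ℕ → ℕ) :
    rest (r e) (c e) e v < 2 ^ (ln (r e) (c e) v) ^ 2 := by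
  have h1 := h.len e
  have h2 := size_le_ln (r e) (c e) v
  have h3 : cod (2 ^ ln (r e) (c e) v) v (r e) < (2 ^ ln (r e) (c e) v) ^ (r e) :=
    cod_lt fun i hi => lt_base hi
  unfold rest
  generalize ln (r e) (c e) v = n at *
  generalize cod (2 ^ n) v (r e) = x at *
  rw [← pow_mul] at h3
  have h4 : 2 * x + 1 < 2 ^ (n * r e + 1) := by
    rw [pow_succ]; omega
  have h5 : e + (n * r e + 1) ≤ n ^ 2 := by nlinarith
  calc 2 ^ e * (2 * x + 1) < 2 ^ e * 2 ^ (n * r e + 1) :=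
        Nat.mul_lt_mul_of_pos_left h4 (by positivity)
    _ = 2 ^ (e + (n * r e + 1)) := by rw [← pow_add]
    _ ≤ 2 ^ n ^ 2 := Nat.pow_le_pow_right (by norm_num) h5

theorem pos_eq (r K c e : ℕ) (v : ℕ → ℕ) : pos r K c e v = 2 ^ MM K (ln r c v) + rest r c e v := rfl

open Classical in
theorem sparse_nat {K₀ : ℕ} {r K c : ℕ → ℕ} (h : Ok K₀ r K c) (N J : ℕ)
    (hJ : Nat.log 2 N < (J + 1) ^ (K₀ + 3)) :
    ((Finset.range N).filter (fun y => ∃ e v, y = pos (r e) (K e) (c e) e v)).card ≤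
      2 ^ (J ^ 2 + J) := by
  let P : ℕ → Prop := fun y => ∃ e v, y = pos (r e) (K e) (c e) e v
  let E : ℕ → ℕ := fun y => if h : P y then h.choose else 0
  let V : ℕ → ℕ → ℕ := fun y => if h : P y then h.choose_spec.choose else fun _ => 0
  have hEV : ∀ y, P y → y = pos (r (E y)) (K (E y)) (c (E y)) (E y) (V y) := by
    intro y hy
    have h1 : E y = hy.choose := dif_pos hy
    have h2 : V y = hy.choose_spec.choose := dif_pos hy
    rw [h1, h2]
    exact hy.choose_spec.choose_spec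
  have hcard : ((Finset.range N).filter P).card ≤
      (Finset.range (J + 1) ×ˢ Finset.range (2 ^ J ^ 2)).card := by
    apply Finset.card_le_card_of_injOn
      (fun y => (ln (r (E y)) (c (E y)) (V y), rest (r (E y)) (c (E y)) (E y) (V y)))
    · intro y hy
      rw [Finset.mem_coe, Finset.mem_filter, Finset.mem_range] at hy
      obtain ⟨hyN, hyP⟩ := hy
      have h1 := hEV y hyP
      have h2 := h.exp (E y)
      have h3 := h.len (E y)
      have h4 := size_le_ln (r (E y)) (c (E y)) (V y)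
      have h5 := rest_lt_sq h (E y) (V y)
      rw [pos_eq] at h1
      have h6 := le_MM (K (E y)) (ln (r (E y)) (c (E y)) (V y))
      have h7 : MM (K (E y)) (ln (r (E y)) (c (E y)) (V y)) ≤ Nat.log 2 N := by
        apply Nat.le_log_of_pow_le (by norm_num)
        omega
      have h8 : (ln (r (E y)) (c (E y)) (V y)) ^ (K₀ + 3) ≤
          (ln (r (E y)) (c (E y)) (V y)) ^ (K (E y) + 1) :=
        Nat.pow_le_pow_right (by omega) (by omega)
      have h9 : ln (r (E y)) (c (E y)) (V y) < J + 1 :=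
        lt_of_pow_lt_pow_left₀ (K₀ + 3) (by omega) (by omega)
      rw [Finset.mem_coe, Finset.mem_product, Finset.mem_range, Finset.mem_range]
      refine ⟨h9, lt_of_lt_of_le h5 ?_⟩
      exact Nat.pow_le_pow_right (by norm_num) (Nat.pow_le_pow_left (by omega) 2)
    · intro y hy z hz hyz
      rw [Finset.mem_coe, Finset.mem_filter] at hy hz
      simp only [Prod.mk.injEq] at hyz
      have hE : E y = E z := exp_eq hyz.2
      rw [hEV y hy.2, hEV z hz.2, pos_eq, pos_eq, hyz.1, hyz.2, hE]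
  refine hcard.trans ?_
  rw [Finset.card_product, Finset.card_range, Finset.card_range, pow_add, mul_comm]
  exact Nat.mul_le_mul_left _ (Nat.lt_two_pow_self)

end Q

open Classical in
theorem sparse_pos {K₀ : ℕ} {r K c : ℕ → ℕ} (h : Ok K₀ r K c) {ε : ℝ} (hε : 0 < ε)
    (hK : 2 < ε * (K₀ + 1)) :
    ∀ᶠ N : ℕ in Filter.atTop, (((Finset.range N).filter
      (fun y => ∃ e v, y = pos (r e) (K e) (c e) e v)).card : ℝ) ≤ 2 ^ (Real.logb 2 N) ^ ε := by
  have hK0 : (0 : ℝ) < ((K₀ + 3 : ℕ) : ℝ) := by positivity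
  have hpos : 0 < ε - 2 * (1 / ((K₀ + 3 : ℕ) : ℝ)) := by
    have : 2 * (1 / ((K₀ + 3 : ℕ) : ℝ)) < ε := by
      rw [mul_one_div, div_lt_iff₀ hK0]
      push_cast
      nlinarith
    linarith
  have ht : Filter.Tendsto (fun N : ℕ => (Real.logb 2 N) ^ (ε - 2 * (1 / ((K₀ + 3 : ℕ) : ℝ))))
      Filter.atTop Filter.atTop :=
    (tendsto_rpow_atTop hpos).comp
      ((Real.tendsto_logb_atTop (by norm_num)).comp tendsto_natCast_atTop_atTop)
  filter_upwards [ht.eventually_ge_atTop 2, Filter.eventually_ge_atTop 2] with N h2 hN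
  set L := Real.logb 2 N with hL
  have hN' : (2 : ℝ) ≤ N := by exact_mod_cast hN
  have hL1 : 1 ≤ L := by
    rw [hL, Real.le_logb_iff_rpow_le (by norm_num) (by linarith)]
    simpa using hN'
  have hL0 : 0 < L := by linarith
  set a : ℝ := 1 / ((K₀ + 3 : ℕ) : ℝ) with ha
  have ha0 : 0 < a := by rw [ha]; positivity
  set J := Nat.floor (L ^ a) with hJdef
  have hJle : (J : ℝ) ≤ L ^ a := Nat.floor_le (Real.rpow_nonneg hL0.le _)
  have hJ : Nat.log 2 N < (J + 1) ^ (K₀ + 3) := by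
    have h3 : L ^ a < (J : ℝ) + 1 := Nat.lt_floor_add_one _
    have h4 : L < ((J : ℝ) + 1) ^ (K₀ + 3) := by
      have h5 : (L ^ a) ^ (K₀ + 3) < ((J : ℝ) + 1) ^ (K₀ + 3) :=
        pow_lt_pow_left₀ h3 (Real.rpow_nonneg hL0.le _) (by omega)
      have h6 : (L ^ a) ^ (K₀ + 3) = L := by
        rw [ha, one_div, Real.rpow_inv_natCast_pow hL0.le (by omega)]
      rw [h6] at h5
      exact h5
    have h7 : (Nat.log 2 N : ℝ) ≤ L := by
      rw [hL, Real.le_logb_iff_rpow_le (by norm_num) (by linarith), Real.rpow_natCast]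
      have := Nat.pow_log_le_self 2 (show N ≠ 0 by omega)
      exact_mod_cast this
    have h8 : (Nat.log 2 N : ℝ) < ((J : ℝ) + 1) ^ (K₀ + 3) := lt_of_le_of_lt h7 h4
    exact_mod_cast h8
  have h9 := Q.sparse_nat h N J hJ
  have h10 : (J : ℝ) ^ 2 + J ≤ L ^ ε := by
    have h11 : 1 ≤ L ^ a := Real.one_le_rpow hL1 ha0.le
    have h12 : L ^ ε = (L ^ a) ^ 2 * L ^ (ε - 2 * a) := by
      rw [← Real.rpow_natCast (L ^ a) 2, ← Real.rpow_mul hL0.le, ← Real.rpow_add hL0]
      congr 1; push_cast; ring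
    rw [h12]
    have h13 : (J : ℝ) ^ 2 ≤ (L ^ a) ^ 2 := pow_le_pow_left₀ (by positivity) hJle 2
    have h14 : (J : ℝ) ≤ (L ^ a) ^ 2 := by nlinarith
    have h15 : 0 ≤ (L ^ a) ^ 2 := by positivity
    nlinarith
  calc (((Finset.range N).filter (fun y => ∃ e v, y = pos (r e) (K e) (c e) e v)).card : ℝ)
      ≤ ((2 ^ (J ^ 2 + J) : ℕ) : ℝ) := by exact_mod_cast h9
    _ = (2 : ℝ) ^ ((J : ℝ) ^ 2 + J) := by
        push_cast
        rw [← Real.rpow_natCast]
        push_cast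
        rfl
    _ ≤ 2 ^ L ^ ε := Real.rpow_le_rpow_of_exponent_le (by norm_num) h10

end Pool.Agent.H943R4.BA
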