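import Pool.Agent.H943R4.BA.NotNullAux
import Pool.Agent.H943R4.BA.Coding
import Pool.Agent.H943R4.BA.SparseBA

/-! The other direction: too many oracles for which the formulas are equivalent to atomic ones. -/

set_option autoImplicit false

namespace Pool.Agent.H943R4.BA

theorem not_null_side (f : ℕ → ℝ) (ε : ℝ) (hε : 0 < ε)
    (hf : ∀ᶠ N : ℕ in Filter.atTop, 2 ^ (Real.logb 2 N) ^ ε < f N) (O : Set (ℕ → Bool))
    (hO : ∀ A : ℕ → Bool, (∀ φ : Fm, ∃ t : Tm, ∀ v, φ.holds A v ↔ A (t.val v) = true) → A ∈ O) :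
    ¬ Null f O :=
  R.not_null_of exists_coding (fun h _ h1 h2 => sparse_pos h h1 h2) f ε hε hf O hO

end Pool.Agent.H943R4.BA
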