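import Pool.Agent.H943R4.BA.Defs
import Pool.Agent.H591R3.PHG.Event

/-!
# Gauge theorem for the hierarchy of bounded formulas: the objects of the proof
-/

set_option autoImplicit false

namespace Pool.Agent.H943R4.BA

open Finset H568R2 Pool.Agent.H676 Pool.Agent.H620R2.Gauge Pool.Agent.H591R3.PHG Pool.Agent.NPC

/-- `k` alternating quantifiers over the strings of length at most `m`, the first one existential
if `b` is true, in front of decision trees of depth `r`. -/
def Alt {I : Type} [Fintype I] [DecidableEq I] (m r : ℕ) : ℕ → Bool → ((I → Bool) → Bool) → Prop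
  | 0, _, g => DTr r g
  | k + 1, true, g => ∃ G : List Bool → (I → Bool) → Bool, (∀ w, Alt m r k false (G w)) ∧
      ∀ a, (g a = true ↔ ∃ w : List Bool, w.length ≤ m ∧ G w a = true)
  | k + 1, false, g => ∃ G : List Bool → (I → Bool) → Bool, (∀ w, Alt m r k true (G w)) ∧
      ∀ a, (g a = true ↔ ∀ w : List Bool, w.length ≤ m → G w a = true)

/-! ### The hard formulas -/

/-- `2 ^ |x_1|` -/
def baseT : Tm := .smash (.succ .zero) (.var 1)

/-- The trees: `∀ x_i ≤ x_(3+K) ¬ ∀ x_(i+1) ≤ x_(2+K) ¬ ... ∀ x ≤ |x_2|` the oracle does not contain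
the number with the digits given by the path. -/
def treeF : ℕ → Tm → ℕ → Fm
  | 0, p, i => .all i (.len (.var 2)) (.neg (.ora (.add (.mul p baseT) (.var i))))
  | K + 1, p, i => .all i (.var (3 + K)) (.neg (treeF K (.add (.mul p baseT) (.var i)) (i + 1)))

/-- The hard formula for `k` quantifiers. -/
def hardF (k : ℕ) : Fm := .neg (treeF (k + 1) (.var 0) (3 + (k + 1)))

/-- The truth value of the trees. -/
def treeV (A : ℕ → Bool) (B w : ℕ) (c : ℕ → ℕ) : ℕ → ℕ → Prop
  | 0, p => ∀ l ≤ w, A (p * B + l) = false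
  | K + 1, p => ∀ a ≤ c K, ¬ treeV A B w c K (p * B + a)

/-- The numbers for the nodes of a forest. -/
def num (B : ℕ) {X : Type} (r : X → ℕ) : (cs : List ℕ) → Idx X cs → ℕ
  | [], g => r g
  | _ :: cs, g => num B r cs g.1 * B + g.2.val

/-- the base -/
def BB (n : ℕ) : ℕ := 2 ^ (64 * n + 3)

/-- The values of the variables: `x_0` is the number `j` of the root, `x_1` gives the base, `x_2`
the number of bits, `x_(3+m)` the number of children. -/
def asg (as : List ℕ) (n j : ℕ) : ℕ → ℕ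
  | 0 => j
  | 1 => 2 ^ (64 * n + 3) - 1
  | 2 => 2 ^ (8 * n - 1) - 1
  | m + 3 => 2 ^ (as.getD m 0) - 1

/-! ### Coding -/

/-- numerals -/
def numT : ℕ → Tm
  | 0 => .zero
  | n + 1 => .succ (numT n)

/-- `x_0 + ... + x_(r-1)` -/
def sumT : ℕ → Tm
  | 0 => .zero
  | r + 1 => .add (sumT r) (.var r)

/-- `c + x_0 + ... + x_(r-1)` -/
def bigT (r c : ℕ) : Tm := .add (numT c) (sumT r)

/-- the number with the digits `x_0, ..., x_(s-1)` to the base `2 ^ |V|` -/
def codT (r c : ℕ) : ℕ → Tm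
  | 0 => .zero
  | s + 1 => .add (.mul (codT r c s) (.smash (.succ .zero) (bigT r c))) (.var s)

/-- `V # V # ... # V`, roughly -/
def powT (r c : ℕ) : ℕ → Tm
  | 0 => .smash (.succ .zero) (bigT r c)
  | K + 1 => .smash (powT r c K) (bigT r c)

/-- The term for the position where the truth of formula number `e` is coded. -/
def posT (r K c e : ℕ) : Tm :=
  .add (powT r c K) (.mul (numT (2 ^ e)) (.succ (.mul (numT 2) (codT r c r))))

/-- the value of `sumT` -/
def sm (v : ℕ → ℕ) (r : ℕ) : ℕ := ∑ i ∈ Finset.range r, v i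

/-- the digits -/
def cod (B : ℕ) (v : ℕ → ℕ) : ℕ → ℕ
  | 0 => 0
  | s + 1 => cod B v s * B + v s

/-- the exponents -/
def MM : ℕ → ℕ → ℕ
  | 0, n => n
  | K + 1, n => (MM K n + 1) * n

/-- the length `|c + x_0 + ... + x_(r-1)|` -/
def ln (r c : ℕ) (v : ℕ → ℕ) : ℕ := (c + sm v r).size

/-- The position where the truth of formula number `e` is coded. -/
def pos (r K c e : ℕ) (v : ℕ → ℕ) : ℕ :=
  2 ^ MM K (ln r c v) + 2 ^ e * (2 * cod (2 ^ ln r c v) v r + 1)

/-- Good parameters for the coding. -/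
structure Ok (K₀ : ℕ) (r K c : ℕ → ℕ) : Prop where
  len : ∀ e, e + r e + 3 ≤ (c e).size
  exp : ∀ e, K₀ + 2 ≤ K e

end Pool.Agent.H943R4.BA
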