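import Pool.Agent.H943R4.BA.Obj

/-!
# Injectivity of the positions (task K, helper90)
-/

set_option autoImplicit false

namespace Pool.Agent.H943R4.BA

theorem le_MM (K n : ℕ) : n ^ (K + 1) ≤ MM K n := by
  induction K with
  | zero => simp [MM]
  | succ K ih =>
    rw [pow_succ]
    unfold MM
    exact Nat.mul_le_mul_right n (ih.trans (Nat.le_succ _))

theorem MM_strictMono (K : ℕ) : StrictMono (fun n => MM K (n + 1)) := by
  induction K with
  | zero =>
    intro a b h
    simpa [MM] using h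
  | succ K ih =>
    intro a b h
    have h1 : MM K (a + 1) < MM K (b + 1) := ih h
    change (MM K (a + 1) + 1) * (a + 1) < (MM K (b + 1) + 1) * (b + 1)
    exact Nat.mul_lt_mul'' (by omega) (by omega)

theorem cod_lt {B r : ℕ} {v : ℕ → ℕ} (h : ∀ i < r, v i < B) : cod B v r < B ^ r := by
  induction r with
  | zero => simp [cod]
  | succ s ih =>
    have h1 : cod B v s < B ^ s := ih (fun i hi => h i (by omega))
    have h2 : v s < B := h s (by omega)
    have h3 : (cod B v s + 1) * B ≤ B ^ s * B := Nat.mul_le_mul_right B h1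
    have h4 : cod B v (s + 1) = cod B v s * B + v s := rfl
    rw [h4, pow_succ]
    have h5 : (cod B v s + 1) * B = cod B v s * B + B := by ring
    omega

theorem cod_inj {B r : ℕ} {v v' : ℕ → ℕ} (h : ∀ i < r, v i < B) (h' : ∀ i < r, v' i < B)
    (he : cod B v r = cod B v' r) : ∀ i < r, v i = v' i := by
  induction r with
  | zero =>
    intro i hi
    omega
  | succ s ih =>
    have h4 : cod B v s * B + v s = cod B v' s * B + v' s := he
    have h2 : v s < B := h s (by omega)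
    have h2' : v' s < B := h' s (by omega)
    have hB : 0 < B := by omega
    have e1 : (cod B v s * B + v s) % B = v s := by
      rw [Nat.mul_add_mod_self_right, Nat.mod_eq_of_lt h2]
    have e2 : (cod B v' s * B + v' s) % B = v' s := by
      rw [Nat.mul_add_mod_self_right, Nat.mod_eq_of_lt h2']
    have e3 : v s = v' s := by rw [← e1, ← e2, h4]
    have e4 : cod B v s = cod B v' s := by
      rw [e3] at h4
      exact Nat.eq_of_mul_eq_mul_right hB (by omega)
    intro i hi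
    rcases Nat.lt_succ_iff_lt_or_eq.1 hi with h5 | h5
    · exact ih (fun i hi => h i (by omega)) (fun i hi => h' i (by omega)) e4 i h5
    · rw [h5]
      exact e3

/-- the values of the variables are smaller than the base -/
theorem lt_base {r c : ℕ} {v : ℕ → ℕ} {i : ℕ} (hi : i < r) : v i < 2 ^ ln r c v := by
  have h1 : v i ≤ sm v r := by
    unfold sm
    exact Finset.single_le_sum (f := v) (fun _ _ => Nat.zero_le _) (Finset.mem_range.2 hi)
  have h2 : c + sm v r < 2 ^ ln r c v := Nat.lt_size_self _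
  omega

theorem size_le_ln (r c : ℕ) (v : ℕ → ℕ) : c.size ≤ ln r c v :=
  Nat.size_le_size (Nat.le_add_right _ _)

namespace TK

theorem exp_le {K₀ : ℕ} {r K c : ℕ → ℕ} (h : Ok K₀ r K c) (e : ℕ) (v : ℕ → ℕ) :
    e + 1 + ln (r e) (c e) v * r e ≤ MM (K e) (ln (r e) (c e) v) := by
  have h1 : e + r e + 3 ≤ ln (r e) (c e) v := (h.len e).trans (size_le_ln _ _ _)
  have h2 : 2 ≤ K e + 1 := by
    have := h.exp e
    omega
  set n := ln (r e) (c e) v with hn
  have h3 : n ^ 2 ≤ n ^ (K e + 1) := Nat.pow_le_pow_right (by omega) h2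
  have h4 := le_MM (K e) n
  have h5 : n * (e + r e + 3) ≤ n * n := Nat.mul_le_mul_left n h1
  have h6 : n * (e + r e + 3) = n * r e + n * (e + 3) := by ring
  have h7 : 1 * (e + 3) ≤ n * (e + 3) := Nat.mul_le_mul_right _ (by omega)
  have h8 : n ^ 2 = n * n := sq n
  omega

theorem not_lt_of_eq {M M' e e' x x' : ℕ} (hM : e + 1 ≤ M) (hM' : e' + 1 ≤ M')
    (h : 2 ^ M + 2 ^ e * (2 * x + 1) = 2 ^ M' + 2 ^ e' * (2 * x' + 1)) : ¬ e < e' := by
  intro hlt
  have h1 : 2 ^ (e + 1) ∣ 2 ^ M' + 2 ^ e' * (2 * x' + 1) :=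
    dvd_add (pow_dvd_pow 2 (by omega)) (Dvd.dvd.mul_right (pow_dvd_pow 2 (by omega)) _)
  have h2 : 2 ^ (e + 1) ∣ 2 ^ M := pow_dvd_pow 2 hM
  rw [← h] at h1
  have h3 : 2 ^ (e + 1) ∣ 2 ^ e * (2 * x + 1) := (Nat.dvd_add_right h2).1 h1
  rw [pow_succ] at h3
  have h4 : 2 ∣ 2 * x + 1 := Nat.dvd_of_mul_dvd_mul_left (by positivity) h3
  omega

theorem not_lt_of_eq' {M M' x x' : ℕ} (hx : x < 2 ^ M) (h : 2 ^ M + x = 2 ^ M' + x') :
    ¬ M < M' := by
  intro hlt
  have h1 : 2 ^ (M + 1) ≤ 2 ^ M' := Nat.pow_le_pow_right (by norm_num) hlt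
  rw [pow_succ] at h1
  omega

end TK

/-- the second summand is smaller than the first one -/
theorem rest_lt {K₀ : ℕ} {r K c : ℕ → ℕ} (h : Ok K₀ r K c) (e : ℕ) (v : ℕ → ℕ) :
    2 ^ e * (2 * cod (2 ^ ln (r e) (c e) v) v (r e) + 1) < 2 ^ MM (K e) (ln (r e) (c e) v) := by
  have h1 := TK.exp_le h e v
  have h2 : cod (2 ^ ln (r e) (c e) v) v (r e) < (2 ^ ln (r e) (c e) v) ^ (r e) :=
    cod_lt (fun i hi => lt_base hi)
  rw [← pow_mul] at h2
  set n := ln (r e) (c e) v with hn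
  have h3 : 2 * cod (2 ^ n) v (r e) + 1 < 2 * 2 ^ (n * r e) := by omega
  calc 2 ^ e * (2 * cod (2 ^ n) v (r e) + 1) < 2 ^ e * (2 * 2 ^ (n * r e)) :=
        Nat.mul_lt_mul_of_pos_left h3 (by positivity)
    _ = 2 ^ (e + 1 + n * r e) := by ring
    _ ≤ 2 ^ MM (K e) n := Nat.pow_le_pow_right (by norm_num) h1

theorem pos_inj {K₀ : ℕ} {r K c : ℕ → ℕ} (h : Ok K₀ r K c) {e e' : ℕ} {v v' : ℕ → ℕ}
    (hp : pos (r e) (K e) (c e) e v = pos (r e') (K e') (c e') e' v') :
    e = e' ∧ ∀ i < r e, v i = v' i := by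
  unfold pos at hp
  have h1 := TK.exp_le h e v
  have h1' := TK.exp_le h e' v'
  have hee : e = e' := by
    have h2 := TK.not_lt_of_eq (by omega) (by omega) hp
    have h3 := TK.not_lt_of_eq (by omega) (by omega) hp.symm
    omega
  subst hee
  refine ⟨rfl, ?_⟩
  have hr := rest_lt h e v
  have hr' := rest_lt h e v'
  have hM : MM (K e) (ln (r e) (c e) v) = MM (K e) (ln (r e) (c e) v') := by
    have h2 := TK.not_lt_of_eq' hr hp
    have h3 := TK.not_lt_of_eq' hr' hp.symm
    omega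
  have hl : e + r e + 3 ≤ ln (r e) (c e) v := (h.len e).trans (size_le_ln _ _ _)
  have hl' : e + r e + 3 ≤ ln (r e) (c e) v' := (h.len e).trans (size_le_ln _ _ _)
  have hn : ln (r e) (c e) v = ln (r e) (c e) v' := by
    obtain ⟨m, hm⟩ : ∃ m, ln (r e) (c e) v = m + 1 := ⟨_, (Nat.succ_pred_eq_of_pos (by omega)).symm⟩
    obtain ⟨m', hm'⟩ : ∃ m, ln (r e) (c e) v' = m + 1 :=
      ⟨_, (Nat.succ_pred_eq_of_pos (by omega)).symm⟩
    rw [hm, hm'] at hM
    have := (MM_strictMono (K e)).injective hM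
    rw [hm, hm', this]
  rw [hM] at hp
  have hp2 := Nat.add_left_cancel hp
  have hp3 := Nat.eq_of_mul_eq_mul_left (by positivity) hp2
  rw [← hn] at hp3
  have hp4 : cod (2 ^ ln (r e) (c e) v) v (r e) = cod (2 ^ ln (r e) (c e) v) v' (r e) := by omega
  refine cod_inj (fun i hi => lt_base hi) (fun i hi => ?_) hp4
  rw [hn]
  exact lt_base hi

end Pool.Agent.H943R4.BA
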