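import Pool.Agent.H943R4.BA.Obj
import Pool.Agent.H620R2.Gauge.Y
import Pool.Agent.H620R2.Gauge.M

/-! Stubs. Never import this file in a finished file. -/

set_option autoImplicit false

namespace Pool.Agent.H943R4.BA

open Finset H568R2 Pool.Agent.H676 Pool.Agent.H620R2.Gauge Pool.Agent.H591R3.PHG Pool.Agent.NPC

/-! ### Task A: file `AltA.lean` (closure properties of `Alt`) -/

section A
variable {I : Type} [Fintype I] [DecidableEq I] {m r m' r' : ℕ}

theorem Alt.const (k : ℕ) (b : Bool) (c : Bool) : Alt m r k b (fun _ : I → Bool => c) := by sorry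

theorem Alt.mono (hm : m ≤ m') (hr : r ≤ r') {k : ℕ} {b : Bool} {g : (I → Bool) → Bool}
    (h : Alt m r k b g) : Alt m' r' k b g := by sorry

theorem Alt.not {k : ℕ} {b : Bool} {g : (I → Bool) → Bool} (h : Alt m r k b g) :
    Alt m r k (!b) (fun a => !g a) := by sorry

theorem Alt.up {k : ℕ} {b : Bool} (c : Bool) {g : (I → Bool) → Bool} (h : Alt m r k b g) :
    Alt m r (k + 1) c g := by sorry

/-- one more bounded existential quantifier: pair the strings -/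
theorem Alt.ex {k T : ℕ} (hT : T < 2 ^ m') {g : (I → Bool) → Bool}
    (h : ℕ → (I → Bool) → Bool) (hh : ∀ x ≤ T, Alt m r (k + 1) true (h x))
    (hg : ∀ a, (g a = true ↔ ∃ x ≤ T, h x a = true)) :
    Alt (2 * m' + 1 + m) r (k + 1) true g := by sorry

theorem Alt.all {k T : ℕ} (hT : T < 2 ^ m') {g : (I → Bool) → Bool}
    (h : ℕ → (I → Bool) → Bool) (hh : ∀ x ≤ T, Alt m r (k + 1) false (h x))
    (hg : ∀ a, (g a = true ↔ ∀ x ≤ T, h x a = true)) :
    Alt (2 * m' + 1 + m) r (k + 1) false g := by sorry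

/-- substitution -/
theorem Alt.subst {J : Type} [Fintype J] [DecidableEq J] (φ : (J → Bool) → I → Bool)
    (hφ : ∀ f : (I → Bool) → Bool, DTr r f → DTr r (fun z => f (φ z))) {k : ℕ} {b : Bool}
    {g : (I → Bool) → Bool} (h : Alt m r k b g) : Alt m r k b (fun z => g (φ z)) := by sorry

end A

/-! ### Task B: file `AltB.lean` (polynomially many conjunctions) -/

section B
variable {I : Type} [Fintype I] [DecidableEq I] {m r : ℕ}

theorem Alt.conj {k : ℕ} {b : Bool} (M : ℕ) {g : (I → Bool) → Bool}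
    (h : ℕ → (I → Bool) → Bool) (hh : ∀ i < M, Alt m r k b (h i))
    (hg : ∀ a, (g a = true ↔ ∀ i < M, h i a = true)) :
    Alt (M * (2 * m + 2)) (M * r) k b g := by sorry

theorem Alt.disj {k : ℕ} {b : Bool} (M : ℕ) {g : (I → Bool) → Bool}
    (h : ℕ → (I → Bool) → Bool) (hh : ∀ i < M, Alt m r k b (h i))
    (hg : ∀ a, (g a = true ↔ ∃ i < M, h i a = true)) :
    Alt (M * (2 * m + 2)) (M * r) k b g := by sorry

end B

/-! ### Task C: file `ToQF.lean` -/

theorem exists_QF {I : Type} [Fintype I] [DecidableEq I] {m r : ℕ} (k : ℕ) (b : Bool)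
    (g : List Bool → (I → Bool) → Bool) (hg : ∀ y, Alt m r k b (g y)) :
    ∃ F : List Bool → (I → Bool) → Bool, (∀ y, DTr r (F y)) ∧ ∀ y, QF m F k b y = g y := by sorry

/-! ### Task D: file `Compile.lean` (may use tasks A, B from the stubs until they are done) -/

theorem Tm.size_le (t : Tm) : ∃ q : Polynomial ℕ, ∀ (n : ℕ) (v : ℕ → ℕ),
    (∀ i, (v i).size ≤ n) → (t.val v).size ≤ q.eval n := by sorry

/-- every formula of `Σᵇ_k` is given by `k` quantifiers in front of shallow decision trees -/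
theorem compile {k : ℕ} {b : Bool} {φ : Fm} (h : Lv k b φ) : ∃ P : Polynomial ℕ,
    ∀ (n : ℕ) (v : ℕ → ℕ), (∀ i, (v i).size ≤ n) → ∀ N : ℕ, 2 ^ P.eval n ≤ N →
      ∃ g : (Fin N → Bool) → Bool, Alt (P.eval n) (P.eval n) k b g ∧
        ∀ A : ℕ → Bool, (g (fun i => A i) = true ↔ φ.holds A v) := by sorry

/-! ### Task E: file `Hard.lean` -/

theorem hardF_lv (k : ℕ) : Lv (k + 1) true (hardF k) := by sorry

theorem treeF_holds (A : ℕ → Bool) (K : ℕ) (p : Tm) (i : ℕ) (v : ℕ → ℕ) (hi : 3 + K ≤ i)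
    (hp : ∀ v' : ℕ → ℕ, (∀ j < i, v' j = v j) → p.val v' = p.val v) :
    (treeF K p i).holds A v ↔
      treeV A (2 ^ (v 1).size) (v 2).size (fun m => v (3 + m)) K (p.val v) := by sorry

theorem asg_size {as : List ℕ} {n j : ℕ} (hn : 1 ≤ n) (has : ∀ a ∈ as, a ≤ 64 * n)
    (hj : j < 2 ^ (n + 11)) (i : ℕ) : (asg as n j i).size ≤ 64 * n + 11 := by sorry

/-- the meaning of the hard formula -/
theorem hard_iff (A : ℕ → Bool) {k n K : ℕ} (hn : 1 ≤ n) {as : List ℕ} (hk : as.length = k + 1)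
    (j : Fin K) :
    (hardF k).holds A (asg as n j) ↔
      Tr (8 * n :: pw as) (fun g => A (num (BB n) (fun j : Fin K => j.val) (8 * n :: pw as) g)) j =
        false := by sorry

/-! ### Task F: file `Num.lean` -/

theorem num_inj {X : Type} {B : ℕ} {r : X → ℕ} (hr : Function.Injective r) {cs : List ℕ}
    (hc : ∀ c ∈ cs, c ≤ B) : Function.Injective (num B r cs) := by sorry

theorem num_lt {X : Type} {B K : ℕ} {r : X → ℕ} (hr : ∀ x, r x < K) {cs : List ℕ}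
    (hc : ∀ c ∈ cs, c ≤ B) (g : Idx X cs) : num B r cs g < K * B ^ cs.length := by sorry

/-! ### Task G: file `Ev.lean` (may use C and the substitution lemma of A from the stubs) -/

open Classical in
theorem ev_bound {k n u N P : ℕ} (hn : 5 ≤ n) (hu : 8 * u ≤ n) {as : List ℕ}
    (hk : as.length = k + 1)
    (hlaw : Ex (nxt (1 / 2) (1 / 2 ^ (4 * n)) 0 (8 * n) (8 * n) law0)
      (Wt (X := Fin (2 ^ (u + 11))) (1 / 2 ^ (4 * n)) (1 / 2 ^ (2 * n)) (8 * n * 2 ^ (4 * n))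
        (1 / 256) (2 ^ (3 * u + 11)) (2 ^ (u + 9)) (pw as)) ≤ (9 / 10) ^ (2 ^ (u + 11)))
    (hP : P ≤ 2 ^ (2 * u)) (e : Idx (Fin (2 ^ (u + 11))) (8 * n :: pw as) → Fin N)
    (he : Function.Injective e) (g : Fin (2 ^ (u + 11)) → (Fin N → Bool) → Bool)
    (hg : ∀ j, Alt P P k true (g j)) :
    Ex unif (fun a : Fin N → Bool => if ∀ j,
      g j a ≠ Tr (8 * n :: pw as) (fun h => a (e h)) j then (1 : ℝ) else 0) ≤
      k * (2 ^ (n + 11 + k * (2 * P + 1) + 2) * (1 / 2) ^ (2 ^ (2 * u) + 1)) +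
        3 * (1 / 2) ^ (2 ^ u) := by sorry

/-! ### Task H: file `CoverBA.lean` (may use everything above) -/

theorem cover_formula (k : ℕ) (ψ : Fm) (hψ : Lv k true ψ) (f : ℕ → ℝ)
    (hf : ∀ ε : ℝ, 0 < ε → ∃ᶠ N : ℕ in Filter.atTop, f N ≤ 2 ^ (Real.logb 2 N) ^ ε)
    (δ : ℝ) (hδ : 0 < δ) : ∃ S : Set (List Bool),
    (∀ A : ℕ → Bool, Eqv A (hardF k) ψ →
      ∃ σ ∈ S, ∀ (i : ℕ) (h : i < σ.length), A i = σ[i]) ∧
    ∑' σ : S, ENNReal.ofReal (2 ^ (f σ.1.length - σ.1.length)) ≤ ENNReal.ofReal δ := by sorry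

theorem null_side (f : ℕ → ℝ)
    (hf : ∀ ε : ℝ, 0 < ε → ∃ᶠ N : ℕ in Filter.atTop, f N ≤ 2 ^ (Real.logb 2 N) ^ ε)
    (O : Set (ℕ → Bool)) (hO : ∀ A ∈ O, ∃ (k : ℕ) (ψ : Fm), Lv k true ψ ∧ Eqv A (hardF k) ψ) :
    Null f O := by sorry

/-! ### Task J: file `Pos.lean` -/

theorem val_numT (v : ℕ → ℕ) (n : ℕ) : (numT n).val v = n := by sorry

theorem val_bigT (v : ℕ → ℕ) (r c : ℕ) : (bigT r c).val v = c + sm v r := by sorry

theorem val_codT (v : ℕ → ℕ) (r c s : ℕ) : (codT r c s).val v = cod (2 ^ ln r c v) v s := by sorry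

theorem val_powT (v : ℕ → ℕ) (r c K : ℕ) : (powT r c K).val v = 2 ^ MM K (ln r c v) := by sorry

theorem val_posT (v : ℕ → ℕ) (r K c e : ℕ) : (posT r K c e).val v = pos r K c e v := by sorry

/-! ### Task K: file `PosInj.lean` -/

theorem le_MM (K n : ℕ) : n ^ (K + 1) ≤ MM K n := by sorry

theorem MM_strictMono (K : ℕ) : StrictMono (fun n => MM K (n + 1)) := by sorry

theorem cod_lt {B r : ℕ} {v : ℕ → ℕ} (h : ∀ i < r, v i < B) : cod B v r < B ^ r := by sorry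

theorem cod_inj {B r : ℕ} {v v' : ℕ → ℕ} (h : ∀ i < r, v i < B) (h' : ∀ i < r, v' i < B)
    (he : cod B v r = cod B v' r) : ∀ i < r, v i = v' i := by sorry

/-- the values of the variables are smaller than the base -/
theorem lt_base {r c : ℕ} {v : ℕ → ℕ} {i : ℕ} (hi : i < r) : v i < 2 ^ ln r c v := by sorry

theorem size_le_ln (r c : ℕ) (v : ℕ → ℕ) : c.size ≤ ln r c v := by sorry

/-- the second summand is smaller than the first one -/
theorem rest_lt {K₀ : ℕ} {r K c : ℕ → ℕ} (h : Ok K₀ r K c) (e : ℕ) (v : ℕ → ℕ) :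
    2 ^ e * (2 * cod (2 ^ ln (r e) (c e) v) v (r e) + 1) < 2 ^ MM (K e) (ln (r e) (c e) v) := by
  sorry

theorem pos_inj {K₀ : ℕ} {r K c : ℕ → ℕ} (h : Ok K₀ r K c) {e e' : ℕ} {v v' : ℕ → ℕ}
    (hp : pos (r e) (K e) (c e) e v = pos (r e') (K e') (c e') e' v') :
    e = e' ∧ ∀ i < r e, v i = v' i := by sorry

/-! ### Task M: file `Local.lean` -/

/-- the truth of a formula depends on finitely many variables and on a polynomially bounded part
of the oracle -/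
theorem local_holds (φ : Fm) : ∃ (r : ℕ) (P : Polynomial ℕ), ∀ (n : ℕ) (v v' : ℕ → ℕ)
    (A A' : ℕ → Bool), (∀ i < r, v i = v' i) → (∀ i < r, (v i).size ≤ n) →
    (∀ x < 2 ^ P.eval n, A x = A' x) → (φ.holds A v ↔ φ.holds A' v') := by sorry

/-- parameters for the coding -/
theorem exists_par (K₀ : ℕ) (r₀ : ℕ → ℕ) (P : ℕ → Polynomial ℕ) : ∃ K c : ℕ → ℕ,
    Ok K₀ r₀ K c ∧ ∀ e n, (c e).size ≤ n → (P e).eval n ≤ MM (K e) n := by sorry

/-! ### Task N: file `Coding.lean` (may use J, K, M from the stubs) -/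

theorem exists_coding (K₀ : ℕ) : ∃ (r K c : ℕ → ℕ) (Φ : (ℕ → Bool) → (ℕ → Bool)),
    Ok K₀ r K c ∧ (∀ B y, (∀ e v, y ≠ pos (r e) (K e) (c e) e v) → Φ B y = B y) ∧
    ∀ B (φ : Fm), ∃ t : Tm, ∀ v, φ.holds (Φ B) v ↔ Φ B (t.val v) = true := by sorry

/-! ### Task Q: file `SparseBA.lean` (may use K from the stubs) -/

open Classical in
theorem sparse_pos {K₀ : ℕ} {r K c : ℕ → ℕ} (h : Ok K₀ r K c) {ε : ℝ} (hε : 0 < ε)
    (hK : 2 < ε * (K₀ + 1)) :
    ∀ᶠ N : ℕ in Filter.atTop, (((Finset.range N).filter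
      (fun y => ∃ e v, y = pos (r e) (K e) (c e) e v)).card : ℝ) ≤ 2 ^ (Real.logb 2 N) ^ ε := by
  sorry

/-! ### Task R: file `NotNullBA.lean` (may use N, Q from the stubs) -/

theorem not_null_side (f : ℕ → ℝ) (ε : ℝ) (hε : 0 < ε)
    (hf : ∀ᶠ N : ℕ in Filter.atTop, 2 ^ (Real.logb 2 N) ^ ε < f N) (O : Set (ℕ → Bool))
    (hO : ∀ A : ℕ → Bool, (∀ φ : Fm, ∃ t : Tm, ∀ v, φ.holds A v ↔ A (t.val v) = true) → A ∈ O) :
    ¬ Null f O := by sorry

end Pool.Agent.H943R4.BA
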